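import Pool.Agent.Lib.MP_33b3f9_ag.M4.CP.Ht1
import Pool.Agent.Lib.MP_33b3f9_ag.M4.CP.Div

/-!
The height as a quadratic form.
-/

set_option autoImplicit false
set_option linter.unusedSectionVars false

namespace M4.CP

open Polynomial Filter

namespace TD

variable {k : Type} [Field k] [IsAlgClosed k] {p : ℕ} [Fact p.Prime] [CharP k p]
  {Vt W ι : Type} [AddCommGroup Vt] [Module ℚ Vt] [AddCommGroup W] [Fintype ι]
  (D : TD k p Vt W ι)

variable {D} (H : HtSys k D.KK) {a b : Vt × W → Vt × W}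

theorem ht_zero : D.ht H 0 = 0 := by
  have h0 : D.InA 0 := D.inA_const 0
  have h := ht_rel H h0 h0 h0 h0 0 fun O hO => by
    rw [show D.qO O 0 = 1 from qO_const hO 0, pow_zero]
  simp only [Nat.cast_zero, zero_mul, add_zero] at h
  omega

/-- `ht_rel`, `isQuad` -/
theorem ht_par (ha : D.InA a) (hb : D.InA b) :
    D.ht H (a + b) + D.ht H (a - b) = 2 * D.ht H a + 2 * D.ht H b := by
  exact_mod_cast ht_rel H (ha.add_sub hb).1 (ha.add_sub hb).2 ha hb 2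
    fun O hO => (isQuad hO).par ⟨a, ha⟩ ⟨b, hb⟩

/-- `ht_rel` with two zero points -/
theorem ht_of_pow (ha : D.InA a) (hb : D.InA b) (n : ℕ)
    (h : ∀ O, D.Over O → D.qO O a = D.qO O b ^ n) : D.ht H a = n * D.ht H b := by
  have h0 : D.InA 0 := D.inA_const 0
  have h1 := ht_rel H ha h0 hb h0 n fun O hO => by
    rw [show D.qO O 0 = 1 from qO_const hO 0, h O hO, one_pow]
  rwa [ht_zero, add_zero, mul_zero, add_zero] at h1

theorem ht_sg (ha : D.InA a) : D.ht H (D.sg ∘ a) = p * D.ht H a := by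
  exact ht_of_pow H ha.sg ha p fun O _ => qO_sg ha

theorem ht_sg_iter (ha : D.InA a) (n : ℕ) : D.ht H (D.sg^[n] ∘ a) = p ^ n * D.ht H a := by
  suffices h : D.InA (D.sg^[n] ∘ a) ∧ D.ht H (D.sg^[n] ∘ a) = p ^ n * D.ht H a from h.2
  induction n with
  | zero => exact ⟨ha, by simp⟩
  | succ n ih =>
    rw [Function.iterate_succ', Function.comp_assoc]
    exact ⟨ih.1.sg, by rw [ht_sg H ih.1, ih.2, pow_succ', mul_assoc]⟩

theorem ht_nsmul (ha : D.InA a) (n : ℕ) : D.ht H (n • a) = n ^ 2 * D.ht H a := by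
  exact_mod_cast ht_of_pow H (D.mem_AA.1 (D.AA.nsmul_mem (D.mem_AA.2 ha) n)) ha (n ^ 2)
    fun O hO => (isQuad hO).nsmul n ⟨a, ha⟩

/-- `sg^[n] ∘ Vj n ∘ a = p ^ n • a` -/
theorem ht_Vj (ha : D.InA a) (n : ℕ) (hV : D.InA (D.Vj n ∘ a)) :
    D.ht H (D.Vj n ∘ a) = p ^ n * D.ht H a := by
  have h1 := ht_sg_iter H hV n
  have h2 : D.sg^[n] ∘ D.Vj n ∘ a = p ^ n • a := by
    rw [← Function.comp_assoc, D.sg_Vj]
    rfl
  have hp : (p : ℤ) ^ n ≠ 0 := pow_ne_zero _ (Nat.cast_ne_zero.2 (Fact.out : p.Prime).ne_zero)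
  rw [h2, ht_nsmul H ha, Nat.cast_pow, sq, mul_assoc] at h1
  exact (mul_left_cancel₀ hp h1).symm

variable (D)

/-- `h a = (ht H (pol a)).toNat` for `H` from `exists_htSys` with `adjoin_xx`; `ht_eq_zero` with
`consta` and `Ka_pol_const`; `div_N`, `div_V_pol`. -/
theorem exists_ht : ∃ h : ℤ[X] → ℕ,
    (∀ a b, h (a + b) + h (a - b) = 2 * h a + 2 * h b) ∧
    (∀ a, h (Polynomial.X * a) = p * h a) ∧
    (∀ a, h a = 0 ↔ ∀ x, D.polV a x ∈ D.Lam) ∧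
    (∀ (N : ℕ) (a : ℤ[X]), ¬ p ∣ N → (∀ x : Vt, N • x ∈ D.Lam → D.polV a x ∈ D.Lam) →
      N ^ 2 ∣ h a) ∧
    (D.Ord → ∀ (n : ℕ) (a : ℤ[X]), (∀ y : W, p ^ n • y = 0 → D.polW a y ∈ D.C) → p ^ n ∣ h a) := by
  obtain ⟨H⟩ := exists_htSys p D.xx D.adjoin_xx
  have hc : ∀ a, ((D.ht H (D.pol a)).toNat : ℤ) = D.ht H (D.pol a) := fun a =>
    Int.toNat_of_nonneg (ht_nonneg H (D.inA_pol a))
  refine ⟨fun a => (D.ht H (D.pol a)).toNat, fun a b => ?_, fun a => ?_, fun a => ?_,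
    fun N a hN h => ?_, fun ho n a h => ?_⟩
  · zify
    rw [hc, hc, hc, hc, D.pol_add, D.pol_sub, ht_par H (D.inA_pol a) (D.inA_pol b)]
  · zify
    rw [hc, hc, D.pol_mul, D.pol_X, ht_sg H (D.inA_pol a)]
  · zify
    rw [hc, ht_eq_zero H (D.inA_pol a)]
    exact ⟨fun h x => (D.consta (D.inA_pol a) (D.pol_map_add a) h (x, 0)).1,
      fun h c hc => D.Ka_pol_const h hc⟩
  · obtain ⟨a', ha', h1⟩ := D.div_N hN a h
    zify
    rw [hc, ← h1, ht_nsmul H ha']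
    exact dvd_mul_right _ _
  · obtain ⟨a', ha', h1⟩ := div_V_pol ho a h
    zify
    rw [hc, ← h1, ht_Vj H ha' n (h1 ▸ D.inA_pol a)]
    exact dvd_mul_right _ _

end TD

end M4.CP
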