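import Pool.Agent.Lib.MP_33b3f9_ag.M4.CP.Every2
import Pool.Agent.Lib.MP_33b3f9_ag.M4.CP.Ht2

/-!
The outputs of the block.
-/

set_option autoImplicit false
set_option linter.unusedSectionVars false

namespace M4.CP

open Polynomial Filter

namespace TD

variable {k : Type} [Field k] [IsAlgClosed k] {p : ℕ} [Fact p.Prime] [CharP k p]
  {Vt W ι : Type} [AddCommGroup Vt] [Module ℚ Vt] [AddCommGroup W] [Fintype ι]
  (D : TD k p Vt W ι)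

theorem out_sep {z u : Vt × W} {c : k} (h : ∀ i, D.X i (z + u) = c * D.X i z) :
    u.1 ∈ D.Lam ∧ u.2 ∈ D.C := D.sep h

theorem out_ker {a : ℤ[X]} (h : ∀ x, D.polV a x ∈ D.Lam) (y : W) : D.polW a y ∈ D.C :=
  D.pol_ker h y

theorem out_card (h : D.Ord) (j : ℕ) :
    Nat.card {y : W // p ^ j • y = 0 ∧ y ∈ D.C} = p ^ (4 * j) := card_C h j

theorem out_main (h : D.Ord) (δ : ℤ[X]) (m j d : ℕ) (hm : δ.natDegree ≤ m) (hd : ¬ p ∣ d)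
    (h1 : D.polV (δ * recip p m δ) =
      D.polV (Polynomial.C ((p : ℤ) ^ (2 * j) * d) * Polynomial.X ^ m))
    (h2 : ∀ y : W, p ^ j • y = 0 → D.polW δ y ∈ D.C)
    (h3 : ∀ y : W, p ^ j • y = 0 → D.polW (recip p m δ) y ∈ D.C) :
    ∃ t : ℕ, ∀ n, ¬ p ∣ n → ∀ f ∈ D.G n, ∃ g ∈ D.G (n * d * 4 ^ t), ∀ x : Vt,
      g (x, 0) = f (((p : ℚ) ^ j)⁻¹ • D.polV δ (2 ^ t • x), 0) :=
  Hyp.main ⟨h, hm, hd, h1, h2, h3⟩

theorem out_weil : ∃ h : ℤ[X] → ℕ,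
    (∀ a b, h (a + b) + h (a - b) = 2 * h a + 2 * h b) ∧
    (∀ a, h (Polynomial.X * a) = p * h a) ∧
    (∀ a, h a = 0 ↔ ∀ x, D.polV a x ∈ D.Lam) ∧
    (∀ (N : ℕ) (a : ℤ[X]), ¬ p ∣ N → (∀ x : Vt, N • x ∈ D.Lam → D.polV a x ∈ D.Lam) →
      N ^ 2 ∣ h a) ∧
    (D.Ord → ∀ (n : ℕ) (a : ℤ[X]), (∀ y : W, p ^ n • y = 0 → D.polW a y ∈ D.C) → p ^ n ∣ h a) :=
  D.exists_ht

/-- The same when `Lam` contains no rational line. -/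
theorem out_weil' (hs : ∀ x : Vt, (∀ c : ℚ, c • x ∈ D.Lam) → x = 0) : ∃ h : ℤ[X] → ℕ,
    (∀ a b, h (a + b) + h (a - b) = 2 * h a + 2 * h b) ∧
    (∀ a, h (Polynomial.X * a) = p * h a) ∧ (∀ a, h a = 0 ↔ D.polV a = 0) ∧
    (∀ (N : ℕ) (a : ℤ[X]), ¬ p ∣ N → (∀ x ∈ D.Lam, ∃ y ∈ D.Lam, D.polV a x = N • y) →
      N ^ 2 ∣ h a) ∧
    (D.Ord → ∀ (n : ℕ) (a : ℤ[X]), (∀ y : W, p ^ n • y = 0 → D.polW a y ∈ D.C) → p ^ n ∣ h a) := by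
  obtain ⟨h, h1, h2, h3, h4, h5⟩ := D.out_weil
  refine ⟨h, h1, h2, fun a => (h3 a).trans ⟨fun H => ?_, fun H x => ?_⟩, fun N a hN H => ?_, h5⟩
  · refine LinearMap.ext fun x => hs _ fun c => ?_
    rw [← D.polV_qsmul]; exact H _
  · rw [H]; exact D.Lam.zero_mem
  · refine h4 N a hN fun x hx => ?_
    obtain ⟨y, hy, e⟩ := H _ hx
    have h0 : (N : ℚ) ≠ 0 := by
      rintro h0
      exact hN (by rw [Nat.cast_eq_zero.1 h0]; exact dvd_zero _)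
    rw [map_nsmul, ← Nat.cast_smul_eq_nsmul ℚ, ← Nat.cast_smul_eq_nsmul ℚ] at e
    rw [smul_right_injective Vt h0 e]; exact hy

end TD

end M4.CP
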