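import Pool.Agent.Lib.MP_33b3f9_ag.M4.CP.Defs

/-!
Artin and separable degree.
-/

set_option autoImplicit false
set_option linter.unusedSectionVars false

namespace M4.CP

open Polynomial Filter

variable {k L : Type} [Field k] [Field L] [Algebra k L]

/-- Distinct endomorphisms fixing `E` pointwise are distinct `E`-algebra maps
(`card_algHom_le_finrank`). -/
theorem card_le_finrank (E : IntermediateField k L) [FiniteDimensional E L]
    (S : Finset (L →ₐ[k] L)) (hS : ∀ t ∈ S, ∀ c ∈ E, t c = c) : S.card ≤ Module.finrank E L := by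
  let f : S → (L →ₐ[E] L) := fun t =>
    { t.1.toRingHom with commutes' := fun c => hS t.1 t.2 c.1 c.2 }
  have hf : Function.Injective f := fun t t' h =>
    Subtype.ext (AlgHom.ext fun x => DFunLike.congr_fun h x)
  rw [← Nat.card_eq_finsetCard]
  exact (Nat.card_le_card_of_injective f hf).trans (card_algHom_le_finrank E L L)

theorem art_fin {F E : IntermediateField k L} (h : F ≤ E) [FiniteDimensional F L] :
    FiniteDimensional E L :=
  inferInstanceAs (FiniteDimensional (IntermediateField.extendScalars h) L)

theorem art_fixed (H : Subgroup (L ≃ₐ[k] L)) [Finite H] :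
    FiniteDimensional (IntermediateField.fixedField H) L ∧
      Module.finrank (IntermediateField.fixedField H) L = Nat.card H := by
  have := Fintype.ofFinite H
  rw [Nat.card_eq_fintype_card]
  exact ⟨inferInstanceAs (FiniteDimensional (FixedPoints.subfield H L) L),
    FixedPoints.finrank_eq_card H L⟩

/-- Let `E ≥ F` be the field fixed by `S`; `finrank E L ≥ card S ≥ finrank F L`, so `E = F`
(`IntermediateField.eq_of_le_of_finrank_le'`). -/
theorem artin (F : IntermediateField k L) [FiniteDimensional F L] (S : Finset (L →ₐ[k] L))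
    (hS : ∀ t ∈ S, ∀ c ∈ F, t c = c) (hc : Module.finrank F L ≤ S.card) (u : L)
    (hu : ∀ t ∈ S, t u = u) : u ∈ F := by
  let E : IntermediateField k L :=
    { carrier := {c | ∀ t ∈ S, t c = c}
      mul_mem' := fun ha hb t ht => by rw [map_mul, ha t ht, hb t ht]
      add_mem' := fun ha hb t ht => by rw [map_add, ha t ht, hb t ht]
      algebraMap_mem' := fun a t _ => t.commutes a
      inv_mem' := fun a ha t ht => by rw [map_inv₀, ha t ht] }
  have h1 : F ≤ E := fun c hc t ht => hS t ht c hc
  have := art_fin h1
  rw [IntermediateField.eq_of_le_of_finrank_le' h1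
    (hc.trans (card_le_finrank E S fun t ht c hc => hc t ht))]
  exact hu

section charp

variable (p : ℕ) [Fact p.Prime] [CharP k p]

/-- `E` = fixed field of `H`, `finrank E L = card H` (`FixedPoints.finrank_eq_card`). The maps of `S`
fix `F`, hence `E` (the Frobenius is injective); `card_le_finrank`. -/
theorem card_le_card (F : IntermediateField k L) (H : Subgroup (L ≃ₐ[k] L)) [Finite H]
    (hE : ∀ c : L, (∀ g ∈ H, g c = c) → ∃ a : ℕ, c ^ p ^ a ∈ F) (S : Finset (L →ₐ[k] L))
    (hS : ∀ t ∈ S, ∀ c ∈ F, t c = c) : S.card ≤ Nat.card H := by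
  obtain ⟨_, h1⟩ := art_fixed H
  have : CharP L p := charP_of_injective_algebraMap (algebraMap k L).injective p
  rw [← h1]
  refine card_le_finrank _ S fun t ht c hc => ?_
  obtain ⟨a, ha⟩ := hE c ((IntermediateField.mem_fixedField_iff H c).1 hc)
  have h2 := hS t ht _ ha
  rw [map_pow, ← sub_eq_zero, ← sub_pow_char_pow] at h2
  exact sub_eq_zero.1 (pow_eq_zero_iff (pow_ne_zero a (Fact.out : p.Prime).ne_zero) |>.1 h2)

/-- `E` = fixed field of `H` is purely inseparable over `F`, so `finSepDegree F L = finSepDegree E L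
≤ finrank E L = card H`. Let `Ks = separableClosure F L` (`finrank F Ks = finSepDegree F L`,
`Field.finSepDegree_eq`); `L / Ks` is finite purely inseparable, so for large `t` all `p ^ t`-th
powers lie in `Ks` (finitely many generators, or `IsPurelyInseparable.exponent`); hence
`K' ≤ F ⊔ M t ≤ Ks` and `finrank Ks L ≤ finrank K' L`. -/
theorem finrank_le_mul (F K' : IntermediateField k L) [FiniteDimensional F L]
    [FiniteDimensional K' L] (H : Subgroup (L ≃ₐ[k] L)) [Finite H]
    (hH : ∀ g ∈ H, ∀ c ∈ F, g c = c) (hE : ∀ c : L, (∀ g ∈ H, g c = c) → ∃ a : ℕ, c ^ p ^ a ∈ F)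
    (M : ℕ → IntermediateField k L) (hM : ∀ t, ∀ c ∈ M t, ∃ c' : L, c = c' ^ p ^ t)
    (hK : ∀ t, K' ≤ F ⊔ M t) :
    Module.finrank F L ≤ Module.finrank K' L * Nat.card H := by
  obtain ⟨_, h1⟩ := art_fixed H
  have hle : F ≤ IntermediateField.fixedField H := fun c hc =>
    (IntermediateField.mem_fixedField_iff H c).2 fun g hg => hH g hg c hc
  have : CharP F p := charP_of_injective_algebraMap (algebraMap k F).injective p
  have : ExpChar F p := ExpChar.prime Fact.out
  let E := IntermediateField.extendScalars hle
  have : IsPurelyInseparable F E := (isPurelyInseparable_iff_pow_mem F p).2 fun x => by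
    obtain ⟨a, ha⟩ := hE x ((IntermediateField.mem_fixedField_iff H x).1 x.2)
    exact ⟨a, ⟨_, ha⟩, Subtype.ext rfl⟩
  have h2 : Field.finSepDegree F L ≤ Nat.card H := by
    rw [← Field.finSepDegree_mul_finSepDegree_of_isAlgebraic F E L,
      IsPurelyInseparable.finSepDegree_eq_one, one_mul, ← h1]
    exact Field.finSepDegree_le_finrank E L
  have : CharP (separableClosure F L) p :=
    charP_of_injective_algebraMap (algebraMap F (separableClosure F L)).injective p
  have : ExpChar (separableClosure F L) p := ExpChar.prime Fact.out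
  have h3 : K' ≤ (separableClosure F L).restrictScalars k := by
    refine (hK (IsPurelyInseparable.exponent (separableClosure F L) L)).trans (sup_le ?_ ?_)
    · exact fun c hc => (separableClosure F L).algebraMap_mem ⟨c, hc⟩
    · intro c hc
      obtain ⟨c', rfl⟩ := hM _ c hc
      obtain ⟨y, hy⟩ := IsPurelyInseparable.exponent_def' (separableClosure F L) p c'
      rw [← hy]
      exact y.2
  have h4 : Field.finInsepDegree F L ≤ Module.finrank K' L :=
    IntermediateField.finrank_le_of_le_left h3
  rw [← Field.finSepDegree_mul_finInsepDegree, mul_comm]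
  exact Nat.mul_le_mul h4 h2

end charp

/-- `finrank (φ ∘ ψ)(L) L = finrank φ(L) L * finrank ψ(L) L`: tower `φ (ψ L) ≤ φ L ≤ L` and transport of
`ψ L ≤ L` along `φ` (`IntermediateField.relfinrank`, `relfinrank_map_map`, `relfinrank_mul_finrank_top`). -/
theorem finrank_comp (φ ψ : L →ₐ[k] L) :
    Module.finrank (φ.comp ψ).fieldRange L =
      Module.finrank φ.fieldRange L * Module.finrank ψ.fieldRange L := by
  have h1 : (φ.comp ψ).fieldRange = ψ.fieldRange.map φ := (AlgHom.map_fieldRange ψ φ).symm
  have h2 : φ.fieldRange = (⊤ : IntermediateField k L).map φ := AlgHom.fieldRange_eq_map φ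
  have h3 : (φ.comp ψ).fieldRange ≤ φ.fieldRange := by
    rintro _ ⟨x, rfl⟩
    exact ⟨ψ x, rfl⟩
  rw [← IntermediateField.relfinrank_mul_finrank_top h3, mul_comm]
  congr 1
  rw [h1, h2, IntermediateField.relfinrank_map_map, IntermediateField.relfinrank_top_right]

end M4.CP
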