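import Pool.Agent.Lib.MP_33b3f9_ag.M4.CP.Basic
import Pool.Agent.Lib.MP_33b3f9_ag.M4.CP.Formal

/-!
Divisibility and polynomials in the Frobenius.
-/

set_option autoImplicit false
set_option linter.unusedSectionVars false

namespace M4.CP

open Polynomial Filter

namespace TD

variable {k : Type} [Field k] [IsAlgClosed k] {p : ℕ} [Fact p.Prime] [CharP k p]
  {Vt W ι : Type} [AddCommGroup Vt] [Module ℚ Vt] [AddCommGroup W] [Fintype ι]
  (D : TD k p Vt W ι)

theorem basic2_bez {c : ℕ} (hc : ¬ p ∣ c) {j : ℕ} {y : W} (hy : p ^ j • y = 0) :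
    ∃ e : ℤ, c • e • y = y := by
  obtain ⟨a, b, h⟩ := Nat.isCoprime_iff_coprime.2
    (((Nat.Prime.coprime_iff_not_dvd Fact.out).2 hc).pow_left j)
  refine ⟨b, ?_⟩
  conv_rhs => rw [← one_zsmul y, ← h, add_smul, mul_smul, natCast_zsmul, hy, smul_zero, zero_add]
  rw [mul_smul, natCast_zsmul, smul_comm]

theorem exists_level (u : Vt × W) : ∃ M : ℕ, 1 ≤ M ∧ M • u.1 ∈ D.Lam ∧ M • u.2 = 0 := by
  obtain ⟨N, hN, h1⟩ := D.lam_tors u.1
  obtain ⟨j, h2⟩ := D.W_tors u.2
  have h0 : N ≠ 0 := by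
    rintro rfl
    exact hN (dvd_zero p)
  refine ⟨p ^ j * N, Nat.one_le_iff_ne_zero.2
    (mul_ne_zero (pow_ne_zero j (Fact.out : p.Prime).ne_zero) h0), ?_, ?_⟩
  · rw [mul_smul]
    exact D.Lam.nsmul_mem h1 _
  · rw [mul_comm, mul_smul, h2, smul_zero]

include D in
/-- `c = p ^ a * c'`; on a `p`-power torsion element `c'` is invertible (Bezout). -/
theorem W_nsmul_surj {c : ℕ} (hc : c ≠ 0) (y : W) : ∃ y' : W, c • y' = y := by
  obtain ⟨a, c', hc', rfl⟩ := Nat.exists_eq_pow_mul_and_not_dvd hc p (Fact.out : p.Prime).ne_one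
  have h1 : ∀ (a : ℕ) (y : W), ∃ y' : W, p ^ a • y' = y := by
    intro a
    induction a with
    | zero => exact fun y => ⟨y, by simp⟩
    | succ a ih =>
      intro y
      obtain ⟨y1, rfl⟩ := ih y
      obtain ⟨y2, rfl⟩ := D.W_div y1
      exact ⟨y2, by rw [pow_succ, mul_smul]⟩
  obtain ⟨y1, rfl⟩ := h1 a y
  obtain ⟨j, hj⟩ := D.W_tors y1
  obtain ⟨e, he⟩ := basic2_bez hc' hj
  exact ⟨e • y1, by rw [mul_smul, he]⟩

include D in
theorem nsmul_surj {c : ℕ} (hc : c ≠ 0) (z : Vt × W) : ∃ z' : Vt × W, c • z' = z := by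
  obtain ⟨y, hy⟩ := D.W_nsmul_surj hc z.2
  refine ⟨((c : ℚ)⁻¹ • z.1, y), Prod.ext ?_ hy⟩
  change c • ((c : ℚ)⁻¹ • z.1) = z.1
  rw [← Nat.cast_smul_eq_nsmul ℚ, smul_inv_smul₀ (Nat.cast_ne_zero.2 hc)]

include D in
theorem W_nsmul_inj {c : ℕ} (hc : ¬ p ∣ c) {y : W} (h : c • y = 0) : y = 0 := by
  obtain ⟨j, hj⟩ := D.W_tors y
  obtain ⟨e, he⟩ := basic2_bez hc hj
  rw [← he, smul_comm, h, smul_zero]

theorem lam_pow (j : ℕ) {x : Vt} (h : p ^ j • x ∈ D.Lam) : x ∈ D.Lam := by
  induction j generalizing x with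
  | zero => simpa using h
  | succ j ih => exact D.lam_p x (ih (by rwa [pow_succ, mul_smul] at h))

theorem polV_lam (a : ℤ[X]) {x : Vt} (hx : x ∈ D.Lam) : D.polV a x ∈ D.Lam := by
  induction a using Polynomial.induction_on with
  | C c =>
    rw [polV, aeval_C, Module.algebraMap_end_apply]
    exact D.Lam.zsmul_mem hx c
  | add a b ha hb =>
    rw [polV, map_add, LinearMap.add_apply]
    exact add_mem ha hb
  | monomial n c ih =>
    rw [pow_succ', mul_left_comm, polV, map_mul, aeval_X, Module.End.mul_apply]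
    exact (D.sV_lam _).2 ih

/-- additive maps of `ℚ`-vector spaces are linear (`map_ratCast_smul`, `map_rat_smul`) -/
theorem polV_qsmul (a : ℤ[X]) (c : ℚ) (x : Vt) : D.polV a (c • x) = c • D.polV a x :=
  map_rat_smul (D.polV a) c x

theorem pol_map_add (a : ℤ[X]) (z z' : Vt × W) : D.pol a (z + z') = D.pol a z + D.pol a z' :=
  Prod.ext (map_add (D.polV a) _ _) (map_add (D.polW a) _ _)

theorem pol_add (a b : ℤ[X]) : D.pol (a + b) = D.pol a + D.pol b := by
  funext z
  simp only [pol, polV, polW, map_add]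
  rfl

theorem pol_sub (a b : ℤ[X]) : D.pol (a - b) = D.pol a - D.pol b := by
  funext z
  simp only [pol, polV, polW, map_sub]
  rfl

theorem pol_zero : D.pol 0 = 0 := by
  funext z
  simp only [pol, polV, polW, map_zero]
  rfl

theorem pol_mul (a b : ℤ[X]) : D.pol (a * b) = D.pol a ∘ D.pol b := by
  funext z
  simp only [pol, polV, polW, map_mul]
  rfl

theorem pol_one : D.pol 1 = id := by
  funext z
  simp only [pol, polV, polW, map_one]
  rfl

theorem pol_X : D.pol Polynomial.X = D.sg := by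
  funext z
  simp only [pol, polV, polW, aeval_X]
  rfl

theorem pol_X_pow (n : ℕ) : D.pol (Polynomial.X ^ n) = D.sg^[n] := by
  induction n with
  | zero => rw [pow_zero, pol_one, Function.iterate_zero]
  | succ n ih => rw [pow_succ, pol_mul, ih, pol_X, Function.iterate_succ]

theorem pol_C (c : ℤ) : D.pol (Polynomial.C c) = fun z => c • z := by
  funext z
  simp only [pol, polV, polW, aeval_C, Module.algebraMap_end_apply]
  rfl

theorem pol_natCast (c : ℕ) : D.pol (Polynomial.C (c : ℤ)) = fun z => c • z := by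
  rw [pol_C]
  funext z
  exact natCast_zsmul z c

/-- `adj` with `G = kˣ`, `β a y = eps (polV a x) y`. -/
theorem eps_adj (δ : ℤ[X]) (m : ℕ) (hm : δ.natDegree ≤ m) (x y : Vt) :
    D.eps (D.polV δ x) (D.polV (Polynomial.X ^ m) y) = D.eps x (D.polV (recip p m δ) y) := by
  have h := adj (G := kˣ) p (D.sV.toAddMonoidHom.toIntLinearMap : Module.End ℤ Vt)
    (fun a y => Units.mk0 (D.eps (D.polV a x) y) (D.eps_ne_zero _ _))
    (fun a a' y => Units.ext (by
      simp only [Units.val_mk0, Units.val_mul, polV, map_add, LinearMap.add_apply, D.eps_add_left]))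
    (fun a y y' => Units.ext (by simp only [Units.val_mk0, Units.val_mul, D.eps_add_right]))
    (fun a y => Units.ext (by
      simp only [Units.val_mk0, Units.val_pow_eq_pow_val, polV, map_mul, aeval_X]
      exact D.eps_s _ _)) δ m hm 1 y
  have h' := congrArg Units.val h
  simp only [Units.val_mk0, mul_one, polV, map_one] at h'
  simp only [polV, map_pow, aeval_X]
  exact h'

end TD

end M4.CP
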