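import Pool.Agent.Lib.MP_33b3f9_ag.M4.CP.Ord2

/-!
The ordinary case: a basis over the Frobenius image; the Verschiebung.
-/

set_option autoImplicit false
set_option linter.unusedSectionVars false

namespace M4.CP

open Polynomial Filter

namespace TD

variable {k : Type} [Field k] [IsAlgClosed k] {p : ℕ} [Fact p.Prime] [CharP k p]
  {Vt W ι : Type} [AddCommGroup Vt] [Module ℚ Vt] [AddCommGroup W] [Fintype ι]
  (D : TD k p Vt W ι)

/-- the power of the Verschiebung -/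
def Vj (j : ℕ) : Vt × W → Vt × W := fun z => p ^ j • D.sg.symm^[j] z

theorem basis_left (j : ℕ) (z : Vt × W) : D.sg.symm^[j] (D.sg^[j] z) = z :=
  Function.LeftInverse.iterate D.sg.symm_apply_apply j z

theorem basis_right (j : ℕ) (z : Vt × W) : D.sg^[j] (D.sg.symm^[j] z) = z :=
  Function.LeftInverse.iterate D.sg.apply_symm_apply j z

theorem basis_nsmul (e : Vt × W ≃+ Vt × W) (j c : ℕ) (z : Vt × W) :
    e^[j] (c • z) = c • e^[j] z := by
  induction j with
  | zero => rfl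
  | succ j ih => rw [Function.iterate_succ_apply', Function.iterate_succ_apply', ih, map_nsmul]

theorem basis_ne (j : ℕ) : p ^ j ≠ 0 := pow_ne_zero j (Fact.out : p.Prime).ne_zero

theorem Vj_sg (j : ℕ) : D.Vj j ∘ D.sg^[j] = nm (p ^ j) := by
  funext z
  change p ^ j • D.sg.symm^[j] (D.sg^[j] z) = p ^ j • z
  rw [basis_left]

theorem sg_Vj (j : ℕ) : D.sg^[j] ∘ D.Vj j = nm (p ^ j) := by
  funext z
  change D.sg^[j] (p ^ j • D.sg.symm^[j] z) = p ^ j • z
  rw [basis_nsmul, basis_right]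

theorem Vj_add (j : ℕ) (z z' : Vt × W) : D.Vj j (z + z') = D.Vj j z + D.Vj j z' := by
  simp only [Vj, iterate_map_add, nsmul_add]

theorem Vj_surj (j : ℕ) : Function.Surjective (D.Vj j) := by
  intro z
  obtain ⟨z', hz⟩ := D.nsmul_surj (basis_ne (p := p) j) z
  exact ⟨D.sg^[j] z', (congrFun (D.Vj_sg j) z').trans hz⟩

theorem Vj_eq_iff (j : ℕ) (z z' : Vt × W) :
    D.Vj j z' = D.Vj j z ↔ ∃ y : W, p ^ j • y = 0 ∧ z' = z + (0, y) := by
  constructor
  · intro h
    have h1 : p ^ j • z' = p ^ j • z := by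
      have h2 := congrArg D.sg^[j] h
      exact (congrFun (D.sg_Vj j) z').symm.trans (h2.trans (congrFun (D.sg_Vj j) z))
    have h3 : z'.1 = z.1 := by
      have h4 : p ^ j • z'.1 = p ^ j • z.1 := congrArg Prod.fst h1
      rw [← Nat.cast_smul_eq_nsmul ℚ, ← Nat.cast_smul_eq_nsmul ℚ] at h4
      exact smul_right_injective Vt (Nat.cast_ne_zero.2 (basis_ne (p := p) j)) h4
    have h5 : p ^ j • z'.2 = p ^ j • z.2 := congrArg Prod.snd h1
    refine ⟨z'.2 - z.2, by rw [nsmul_sub, h5, sub_self], Prod.ext ?_ ?_⟩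
    · simp [h3]
    · simp
  · rintro ⟨y, hy, rfl⟩
    have h1 : p ^ j • ((0 : Vt), y) = 0 := by
      rw [Prod.smul_mk, hy, nsmul_zero, Prod.mk_zero_zero]
    rw [Vj, Vj, ← basis_nsmul, ← basis_nsmul, nsmul_add, h1, add_zero]

theorem Vj_pol (j : ℕ) (a : ℤ[X]) (z : Vt × W) : D.Vj j (D.pol a z) = D.pol a (D.Vj j z) := by
  have h1 : ∀ b : ℤ[X], ∀ w, D.pol b (D.pol a w) = D.pol a (D.pol b w) := fun b w =>
    (congrFun (D.pol_mul b a) w).symm.trans (by rw [mul_comm, D.pol_mul]; rfl)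
  have h2 := h1 (Polynomial.X ^ j) (D.Vj j z)
  have h3 := h1 (Polynomial.C ((p ^ j : ℕ) : ℤ)) z
  rw [D.pol_X_pow] at h2
  rw [D.pol_natCast] at h3
  refine (D.sg.injective.iterate j) ?_
  rw [h2]
  refine (congrFun (D.sg_Vj j) _).trans (h3.trans ?_)
  exact congrArg (D.pol a) (congrFun (D.sg_Vj j) z).symm

theorem quo_Vj (j : ℕ) : D.Quo (D.Vj j) := by
  exact Quo.comp (D.quo_nm (basis_ne (p := p) j)) (D.quo_sg_symm j)

variable {D}

/-- `indep`, `card_H`, `finrank_Fr` (`LinearIndependent.span_eq_top_of_card_eq_finrank'`) -/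
theorem span_fy (h : D.Ord) (j : ℕ) : Submodule.span (D.Fr j) (Set.range (D.fy j)) = ⊤ := by
  have := Fintype.ofFinite (D.H j)
  have := (D.deg_Fr j).1
  refine (D.indep j).span_eq_top_of_card_eq_finrank' ?_
  rw [← Nat.card_eq_fintype_card, card_H h, finrank_Fr h]

/-- `ded_line`, `kp_line`, `mk_eq_of_line` -/
theorem root_line (h : D.Ord) {j : ℕ} {σ : D.QT} (h1 : σ ^ p ^ j = 1)
    (h2 : ∀ x : Vt, D.pq (trl (x, (0 : W))) σ = σ) : ∃ y : W, σ = D.Phi y := by
  obtain ⟨s, rfl⟩ := QuotientGroup.mk_surjective σ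
  rw [← QuotientGroup.mk_pow, mk_eq_one] at h1
  obtain ⟨u, hu⟩ := h1
  rw [Units.val_pow_eq_pow_val] at hu
  have hu0 : u ≠ 0 := by
    rintro rfl
    rw [map_zero] at hu
    exact (s.isUnit.pow _).ne_zero hu
  obtain ⟨g, c, hc, e⟩ := ded_line (D.Fr j) (fun x : Vt => D.kp (trl (x, (0 : W))))
    (fun x c hc => D.map_mem_Fr _ hc)
    (fun u hu => by
      obtain ⟨e, rfl⟩ := D.const hu
      exact (D.Fr j).algebraMap_mem e)
    (D.fy j) (D.fy_ne_zero j)
    (fun x g => D.kp_line (D.good_trl _) (D.val_fy j g) (by rw [D.mk_phi, D.pq_trl_Phi]))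
    (D.fy_inj j) u hu0 (by rw [span_fy h]; exact Submodule.mem_top)
    (fun x => D.kp_line (D.good_trl _) hu.symm (h2 x))
  exact ⟨D.yy j g, (D.mk_eq_of_line hu.symm (D.val_fy j g) hc e).trans (D.mk_phi _)⟩

/-- `kp b (fy j g)` is a `p ^ j`-th power (`pq_mk`, `mk_eq_one`); span induction with `map_mem_Fr`. -/
theorem div_pi (h : D.Ord) {b : Vt × W → Vt × W} (hb : D.Good b) {j : ℕ}
    (h1 : ∀ y : W, p ^ j • y = 0 → D.pq b (D.Phi y) = 1) : (D.kp b).fieldRange ≤ D.Fr j := by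
  rintro _ ⟨x, rfl⟩
  change D.kp b x ∈ D.Fr j
  have hx : x ∈ Submodule.span (D.Fr j) (Set.range (D.fy j)) := by
    rw [span_fy h]; exact Submodule.mem_top
  induction hx using Submodule.span_induction with
  | mem x hx =>
    obtain ⟨g, rfl⟩ := hx
    have h2 := h1 _ (D.yy_tors j g)
    rw [← D.mk_phi, pq_mk hb, mk_eq_one] at h2
    obtain ⟨c, hc⟩ := h2
    refine D.mem_Fr.2 ⟨c, D.val_inj ?_⟩
    rw [val_kp hb, D.val_fy, map_pow, map_pow, ← hc, val_pu]
  | zero => rw [map_zero]; exact zero_mem _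
  | add x y _ _ hx hy => rw [map_add]; exact add_mem hx hy
  | smul a x _ hx =>
    rw [IntermediateField.smul_def, smul_eq_mul, map_mul]
    exact (D.Fr j).mul_mem (D.map_mem_Fr _ a.2) hx

/-- `desc` along `sg^[j]` for `a = nm (p ^ j)`; `div_pi`, `pq_nm_Phi`, `Phi_pow` -/
theorem good_Vj (h : D.Ord) (j : ℕ) : D.Good (D.Vj j) := by
  have hn := D.good_nm (basis_ne (p := p) j)
  refine ⟨hn.1.comp (D.isDom_sg_symm j), desc (D.good_sg j) (D.quo_sg j) hn.2 ?_ fun i z => ?_⟩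
  · rw [Ka_good hn]
    exact div_pi h hn fun y hy => by rw [D.pq_nm_Phi (basis_ne (p := p) j), D.Phi_pow hy]
  · exact congrArg (D.X i) (congrFun (D.Vj_sg j) z)

/-- `finrank_comp` for `kp (nm (p ^ j)) = (kp sg^[j]).comp (kp (Vj j))` gives the degree `p ^ (4 j)`;
`artin` with the finite set of algebra maps underlying `H j` (`Vj j ∘ trl (0, y) = Vj j`). -/
theorem fixed_Vj (h : D.Ord) {j : ℕ} {c : D.KK}
    (hc : ∀ y : W, p ^ j • y = 0 → D.kp (trl ((0 : Vt), y)) c = c) :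
    c ∈ (D.kp (D.Vj j)).fieldRange := by
  classical
  have hV := good_Vj h j
  have h1 := finrank_comp (D.kp D.sg^[j]) (D.kp (D.Vj j))
  rw [← kp_comp hV (D.good_sg j), D.Vj_sg, D.deg_Fm (basis_ne (p := p) j), finrank_Fr h] at h1
  have h2 : Module.finrank (D.kp (D.Vj j)).fieldRange D.KK = p ^ (4 * j) := by
    refine (Nat.eq_of_mul_eq_mul_left (Nat.pos_of_ne_zero (basis_ne (p := p) (4 * j))) ?_).symm
    rw [← h1]
    ring
  have : FiniteDimensional (D.kp (D.Vj j)).fieldRange D.KK :=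
    Module.finite_of_finrank_pos (by rw [h2]; exact Nat.pos_of_ne_zero (basis_ne _))
  have := Fintype.ofFinite (D.H j)
  have hinj : Function.Injective fun g : D.H j => (g : D.KK ≃ₐ[k] D.KK).toAlgHom :=
    fun g g' e => Subtype.ext (AlgEquiv.ext fun x => AlgHom.congr_fun e x)
  refine artin _ (Finset.univ.image fun g : D.H j => (g : D.KK ≃ₐ[k] D.KK).toAlgHom) ?_ ?_ c ?_
  · rintro t ht _ ⟨x, rfl⟩
    obtain ⟨g, -, rfl⟩ := Finset.mem_image.1 ht
    have e : D.Vj j ∘ trl ((0 : Vt), D.yy j g) = D.Vj j :=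
      funext fun z => (D.Vj_eq_iff j z _).2 ⟨_, D.yy_tors j g, rfl⟩
    have e2 := AlgHom.congr_fun (kp_comp hV (D.good_trl ((0 : Vt), D.yy j g))) x
    rw [e] at e2
    rw [D.yy_tau]
    exact e2.symm
  · rw [Finset.card_image_of_injective _ hinj, Finset.card_univ, ← Nat.card_eq_fintype_card,
      card_H h, h2]
  · intro t ht
    obtain ⟨g, -, rfl⟩ := Finset.mem_image.1 ht
    rw [D.yy_tau]
    exact hc _ (D.yy_tors j g)

end TD

end M4.CP
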