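import Pool.Agent.Lib.MP_33b3f9_ag.M4.CP.Div

/-!
A torsion class with all symmetries is trivial.
-/

set_option autoImplicit false
set_option linter.unusedSectionVars false

namespace M4.CP

open Polynomial Filter

namespace TD

variable {k : Type} [Field k] [IsAlgClosed k] {p : ℕ} [Fact p.Prime] [CharP k p]
  {Vt W ι : Type} [AddCommGroup Vt] [Module ℚ Vt] [AddCommGroup W] [Fintype ι]
  (D : TD k p Vt W ι)

variable {D}

/-- `pull (nm 4) s = val c`; `c` is fixed by `trl (x, 0)` if `4 • x ∈ Lam`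
(`nm 4 ∘ trl u = trl (4 • u) ∘ nm 4`, `pull_comp`); `art`, `mem_of_pull`, `quo_nm`. -/
theorem triv_four {s : D.FFˣ} (h2 : ∀ l ∈ D.Lam, D.pu (trl (l, (0 : W))) s = s)
    (h3 : D.pq (nm 4 : Vt × W → Vt × W) (QuotientGroup.mk s) = 1) :
    (QuotientGroup.mk s : D.QT) = 1 := by
  have g4 : D.Good (nm 4 : Vt × W → Vt × W) := D.good_nm (by norm_num)
  rw [pq_mk g4, mk_eq_one] at h3
  obtain ⟨c, hc⟩ := h3
  rw [val_pu] at hc
  have hF : c ∈ D.Fm 4 := by
    refine D.art (N := 4) (D.not_dvd_two_pow 2) fun x hx => D.val_inj ?_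
    have e : (nm 4 : Vt × W → Vt × W) ∘ trl (x, (0 : W)) = trl (4 • x, (0 : W)) ∘ nm 4 := by
      funext z
      simp only [Function.comp, nm, trl, smul_add, Prod.smul_mk, smul_zero]
    have h4 := congrArg Units.val (h2 _ hx)
    rw [val_pu] at h4
    rw [val_kp (D.good_trl _), ← hc, ← pull_comp g4.1 (D.good_trl _).1, e,
      pull_comp (D.good_trl _).1 g4.1, h4]
  exact mk_eq_one.2 (mem_of_pull g4 (D.quo_nm (by norm_num)) hF hc)

/-- `triv_four` for `s ^ p ^ a`. Then `pq (trl x) σ / σ` is killed by `p ^ a` and `M`, so trivial;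
`root_line`: `σ = Phi y`; `pq_neg_Phi`: `σ ^ 2 = 1`, and `p` is odd. -/
theorem triv_of (h : D.Ord) {s : D.FFˣ} {a : ℕ}
    (h1 : (QuotientGroup.mk s : D.QT) ^ (4 * p ^ a) = 1)
    (h2 : ∀ l ∈ D.Lam, D.pu (trl (l, (0 : W))) s = s)
    (h3 : D.pq (nm 4 : Vt × W → Vt × W) (QuotientGroup.mk s) = QuotientGroup.mk s ^ 16)
    (h4 : D.pq (fun z => -z) (QuotientGroup.mk s) = QuotientGroup.mk s)
    (h5 : ∀ x : Vt, ∃ M : ℕ, ¬ p ∣ M ∧
      D.pq (trl (x, (0 : W))) (QuotientGroup.mk s) ^ M = QuotientGroup.mk s ^ M) :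
    (QuotientGroup.mk s : D.QT) = 1 := by
  have hp : p.Prime := Fact.out
  have e1 : (QuotientGroup.mk s : D.QT) ^ p ^ a = 1 := by
    rw [← QuotientGroup.mk_pow]
    refine triv_four (fun l hl => by rw [map_pow, h2 l hl]) ?_
    rw [QuotientGroup.mk_pow, map_pow, h3, ← pow_mul, show 16 * p ^ a = 4 * p ^ a * 4 by ring,
      pow_mul, h1, one_pow]
  generalize (QuotientGroup.mk s : D.QT) = σ at h4 h5 e1 ⊢
  have key : ∀ (ρ : D.QT) (M : ℕ), ¬ p ∣ M → ρ ^ p ^ a = 1 → ρ ^ M = 1 → ρ = 1 :=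
    fun ρ M hM h6 h7 => by
      have h8 := pow_gcd_eq_one.2 ⟨h6, h7⟩
      rwa [((Nat.Prime.coprime_iff_not_dvd hp).2 hM).pow_left a, pow_one] at h8
  have dp : ∀ (u v : D.QT) (n : ℕ), (u / v) ^ n = u ^ n / v ^ n := fun u v n =>
    div_pow (α := D.QT) u v n
  obtain ⟨y, rfl⟩ := root_line h e1 fun x => by
    obtain ⟨M, hM, h6⟩ := h5 x
    refine div_eq_one.1 (key _ M hM ?_ ?_)
    · rw [dp, ← map_pow, e1, map_one, div_one]
    · rw [dp, h6, div_self']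
  rw [pq_neg_Phi] at h4
  refine key _ (2 ^ 1) (D.not_dvd_two_pow 1) e1 ?_
  rw [pow_one, sq]
  exact inv_eq_iff_mul_eq_one.1 h4

end TD

end M4.CP
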