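import Pool.Agent.Lib.MP_33b3f9_ag.M4.CP.Defs

/-!
Field theory: independence of invariant lines, Artin, separable degree.
-/

set_option autoImplicit false
set_option linter.unusedSectionVars false

namespace M4.CP

open Polynomial Filter

variable {k L : Type} [Field k] [Field L] [Algebra k L]

/-- Key step: if `∑ y ∈ S, u y = 0` type relations are minimal, all ratios are invariant. Take a
relation `∑ y ∈ S, c y * f y = 0` with some `c y ≠ 0` and `S` of minimal card (all `c y ≠ 0`,
`card ≥ 2`). `t g (c y * f y) = e y * (c y * f y)` with `e y ∈ F`, `e y ≠ 0`; subtract `e y0` times the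
relation: shorter, so `e y = e y0`; hence `c y f y / (c y0 f y0)` is fixed by all `t g`. -/
theorem ded (F : IntermediateField k L) {Γ Y : Type} (t : Γ → L →ₐ[k] L)
    (hF : ∀ g, ∀ c ∈ F, t g c ∈ F) (hfix : ∀ u, (∀ g, t g u = u) → u ∈ F) (f : Y → L)
    (h0 : ∀ y, f y ≠ 0) (hf : ∀ g y, ∃ c ∈ F, t g (f y) = c * f y)
    (hne : ∀ y y', (∃ c ∈ F, f y = c * f y') → y = y') : LinearIndependent F f := by
  classical
  choose d hd hd' using hf
  have key : ∀ s : Finset Y, ∀ c : Y → L, (∀ y, c y ∈ F) → ∑ y ∈ s, c y * f y = 0 →
      ∀ y ∈ s, c y = 0 := by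
    intro s
    induction s using Finset.induction_on with
    | empty => intro c _ _ y hy; simp at hy
    | insert a s ha ih =>
      intro c hc hsum
      rw [Finset.sum_insert ha] at hsum
      have hca : c a = 0 := by
        by_contra hca
        have hne0 : c a * f a ≠ 0 := mul_ne_zero hca (h0 a)
        have hz : ∀ y ∈ s, c y = 0 := by
          intro y hy
          by_contra hcy
          have hw : c y * f y / (c a * f a) ∈ F := by
            refine hfix _ fun g => ?_
            have ht : ∀ z, t g (c z * f z) = t g (c z) * d g z * f z := fun z => by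
              rw [map_mul, hd', mul_assoc]
            have h1 : t g (c a) * d g a * f a + ∑ z ∈ s, t g (c z) * d g z * f z = 0 := by
              have := congrArg (t g) hsum
              rw [map_add, map_sum, map_zero, ht] at this
              simpa only [ht] using this
            have h2 := ih (fun z => c a * (t g (c z) * d g z) - t g (c a) * d g a * c z)
              (fun z => F.sub_mem (F.mul_mem (hc a) (F.mul_mem (hF g _ (hc z)) (hd g z)))
                (F.mul_mem (F.mul_mem (hF g _ (hc a)) (hd g a)) (hc z)))
              (by
                have h3 : ∑ z ∈ s, (c a * (t g (c z) * d g z) - t g (c a) * d g a * c z) * f z =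
                    c a * ∑ z ∈ s, t g (c z) * d g z * f z -
                      t g (c a) * d g a * ∑ z ∈ s, c z * f z := by
                  rw [Finset.mul_sum, Finset.mul_sum, ← Finset.sum_sub_distrib]
                  exact Finset.sum_congr rfl fun z _ => by ring
                rw [h3]
                linear_combination c a * h1 - t g (c a) * d g a * hsum) y hy
            have h4 : t g (c a * f a) ≠ 0 := (map_ne_zero (t g)).2 hne0
            rw [map_div₀, div_eq_div_iff h4 hne0, ht, ht]
            linear_combination f y * f a * h2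
          have hya : y = a := hne y a ⟨c y * f y / (c a * f a) * c a / c y,
            F.div_mem (F.mul_mem hw (hc a)) (hc y), by
              have := h0 a
              field_simp⟩
          exact ha (hya ▸ hy)
        rw [Finset.sum_eq_zero fun y hy => by rw [hz y hy, zero_mul], add_zero] at hsum
        exact hne0 hsum
      rw [hca, zero_mul, zero_add] at hsum
      intro y hy
      rcases Finset.mem_insert.1 hy with rfl | hy
      · exact hca
      · exact ih c hc hsum y hy
  rw [linearIndependent_iff']
  intro s c hs y hy
  exact Subtype.ext (key s (fun y => (c y : L)) (fun y => (c y).2) hs y hy)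

/-- Apply `ded` to the family `Option Y → L` (`none ↦ u`): if `u` is in no line `F f y` the family is
independent, against `u ∈ span`. -/
theorem ded_line (F : IntermediateField k L) {Γ Y : Type} (t : Γ → L →ₐ[k] L)
    (hF : ∀ g, ∀ c ∈ F, t g c ∈ F) (hfix : ∀ u, (∀ g, t g u = u) → u ∈ F) (f : Y → L)
    (h0 : ∀ y, f y ≠ 0) (hf : ∀ g y, ∃ c ∈ F, t g (f y) = c * f y)
    (hne : ∀ y y', (∃ c ∈ F, f y = c * f y') → y = y') (u : L) (hu0 : u ≠ 0)
    (hu : u ∈ Submodule.span F (Set.range f)) (hut : ∀ g, ∃ c ∈ F, t g u = c * u) :
    ∃ y, ∃ c ∈ F, u = c * f y := by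
  by_contra hcon
  have hli : LinearIndependent F (fun o : Option Y => o.elim u f) := by
    refine ded F t hF hfix _ ?_ ?_ ?_
    · rintro (_ | y)
      · exact hu0
      · exact h0 y
    · rintro g (_ | y)
      · exact hut g
      · exact hf g y
    · rintro (_ | y) (_ | y') ⟨c, hc, h⟩
      · rfl
      · exact absurd ⟨y', c, hc, h⟩ hcon
      · have h' : f y = c * u := h
        have hc0 : c ≠ 0 := fun hc0 => h0 y (by rw [h', hc0, zero_mul])
        refine absurd ⟨y, c⁻¹, F.inv_mem hc, ?_⟩ hcon
        rw [h', ← mul_assoc, inv_mul_cancel₀ hc0, one_mul]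
      · exact congrArg some (hne y y' ⟨c, hc, h⟩)
  exact (linearIndependent_option.1 hli).2 hu

end M4.CP
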