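import Pool.Agent.Lib.MP_33b3f9_ag.M4.CP.Class

/-!
Sections pull back to sections, almost everywhere.
-/

set_option autoImplicit false
set_option linter.unusedSectionVars false

namespace M4.CP

open Polynomial Filter

namespace TD

variable {k : Type} [Field k] [IsAlgClosed k] {p : ℕ} [Fact p.Prime] [CharP k p]
  {Vt W ι : Type} [AddCommGroup Vt] [Module ℚ Vt] [AddCommGroup W] [Fintype ι]
  (D : TD k p Vt W ι)

variable {D} {δ : ℤ[X]} {m j d : ℕ} {γ : Vt × W → Vt × W}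

/-- The space of good `f` is stable (`exists_pre`, `U_comp`, `gm_U`, `tr`); `irr`. -/
theorem IsGam.all_of_one (g : D.IsGam δ j γ) (h : D.Hyp δ m j d) {n : ℕ} (hn : ¬ p ∣ n)
    (h1 : ∃ f ∈ D.G n, f ≠ 0 ∧ ∃ f' ∈ D.G (n * d), D.gm f' = D.gm (f ∘ γ)) :
    ∀ f ∈ D.G n, ∃ f' ∈ D.G (n * d), D.gm f' = D.gm (f ∘ γ) := by
  let S : Submodule k (Vt × W → k) :=
    { carrier := {f | f ∈ D.G n ∧ ∃ f' ∈ D.G (n * d), D.gm f' = D.gm (f ∘ γ)}
      zero_mem' := ⟨zero_mem _, 0, zero_mem _, rfl⟩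
      add_mem' := by
        rintro a b ⟨ha, a', ha', ea⟩ ⟨hb, b', hb', eb⟩
        exact ⟨add_mem ha hb, a' + b', add_mem ha' hb', by rw [map_add, ea, eb, ← map_add]; rfl⟩
      smul_mem' := by
        rintro c a ⟨ha, a', ha', ea⟩
        exact ⟨Submodule.smul_mem _ c ha, c • a', Submodule.smul_mem _ c ha', by
          rw [map_smul, ea, ← map_smul]; rfl⟩ }
  rcases D.irr n hn S (fun f hf => hf.1) (fun x hx f hf => by
    obtain ⟨hf, f', hf', e⟩ := hf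
    obtain ⟨x', rfl, hx'⟩ := h.exists_pre hx
    refine ⟨D.tr n _ hx (smul_zero _) f hf, Uop D.eps (n * d) (x', 0) f',
      D.tr _ _ (by rwa [← mul_assoc]) (smul_zero _) f' hf', ?_⟩
    rw [g.U_comp h hf]
    exact D.gm_U e _ _) with e | e
  · obtain ⟨f, hf, h0, h2⟩ := h1
    have : f ∈ S := ⟨hf, h2⟩
    rw [e] at this
    exact absurd this h0
  · intro f hf
    rw [← e] at hf
    exact hf.2

/-- `common`, `class_all`; powers of the good `f` -/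
theorem IsGam.exists_all (g : D.IsGam δ j γ) (h : D.Hyp δ m j d) : ∃ s : ℕ, ∀ i, ¬ p ∣ i →
    ∀ f ∈ D.G (2 ^ s * i), ∃ f' ∈ D.G (2 ^ s * i * d), D.gm f' = D.gm (f ∘ γ) := by
  obtain ⟨s, f, hf, h0, f', hf', e⟩ := common g.good h.cop (g.class_all h)
  refine ⟨s, fun i hi => g.all_of_one h ?_ ⟨f ^ i, D.pow_mem hf i, ?_, f' ^ i, ?_, ?_⟩⟩
  · exact fun hd => ((Fact.out : p.Prime).dvd_mul.1 hd).elim (D.not_dvd_two_pow s) hi
  · obtain ⟨z, hz⟩ := Function.ne_iff.1 h0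
    exact Function.ne_iff.2 ⟨z, pow_ne_zero i hz⟩
  · rw [mul_right_comm]
    exact D.pow_mem hf' i
  · rw [map_pow, e, ← map_pow]
    rfl

/-- A finite spanning family `f l` of `G n` with partners `f' l`; `E = {z | ∀ l, f' l z = f l (γ z)}`;
partners are unique (`gm_inj_G`). -/
theorem exists_E {n : ℕ} (h : ∀ f ∈ D.G n, ∃ f' ∈ D.G (n * d), D.gm f' = D.gm (f ∘ γ)) :
    ∃ E ∈ D.ae, ∀ f ∈ D.G n, ∃ f' ∈ D.G (n * d), D.gm f' = D.gm (f ∘ γ) ∧
      ∀ z ∈ E, f' z = f (γ z) := by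
  have := D.fin n
  obtain ⟨T, hT⟩ : (D.G n).FG := Module.Finite.iff_fg.1 this
  choose! P hP eP using h
  have hT' : ∀ f ∈ T, f ∈ D.G n := fun f hf => hT ▸ Submodule.subset_span hf
  refine ⟨{z | ∀ f ∈ T, P f z = f (γ z)}, ?_, fun f hf => ?_⟩
  · exact (Filter.eventually_all_finset T).2 fun f hf => D.gm_eq.1 (eP f (hT' f hf))
  · rw [← hT] at hf
    induction hf using Submodule.span_induction with
    | mem f hf => exact ⟨P f, hP f (hT' f hf), eP f (hT' f hf), fun z hz => hz f hf⟩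
    | zero => exact ⟨0, zero_mem _, rfl, fun _ _ => rfl⟩
    | add a b _ _ ha hb =>
      obtain ⟨a', ha', ea, za⟩ := ha
      obtain ⟨b', hb', eb, zb⟩ := hb
      exact ⟨a' + b', add_mem ha' hb', by rw [map_add, ea, eb, ← map_add]; rfl, fun z hz => by
        rw [Pi.add_apply, Pi.add_apply, za z hz, zb z hz]⟩
    | smul c a _ ha =>
      obtain ⟨a', ha', ea, za⟩ := ha
      exact ⟨c • a', Submodule.smul_mem _ c ha', by rw [map_smul, ea, ← map_smul]; rfl,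
        fun z hz => by rw [Pi.smul_apply, Pi.smul_apply, za z hz]⟩

/-- First, by induction on `e`, every `F ∈ G (2 ^ s) ^ e` has a partner in `G (2 ^ s * e * d)` that agrees
at `z`. Take `l` with `X l (γ z) ≠ 0`, `b = X l ^ 2 ^ s` with partner `b'`, `r` with `i ≤ 2 ^ r`:
`f * b ^ (2 ^ r - i) ∈ G (2 ^ (s + r)) = G (2 ^ s) ^ 2 ^ r` (`G_pow2` twice), its partner is
`f' * b' ^ (2 ^ r - i)` (`gm_inj_G`). -/
theorem eq_at {s : ℕ} {z : Vt × W} (h : ∀ f ∈ D.G (2 ^ s), ∃ f' ∈ D.G (2 ^ s * d),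
    D.gm f' = D.gm (f ∘ γ) ∧ f' z = f (γ z)) {i : ℕ} {f f' : Vt × W → k}
    (hf : f ∈ D.G (2 ^ s * i)) (hf' : f' ∈ D.G (2 ^ s * i * d)) (he : D.gm f' = D.gm (f ∘ γ)) :
    f' z = f (γ z) := by
  have key : ∀ e, ∀ F ∈ D.G (2 ^ s) ^ e, ∃ F' ∈ D.G (2 ^ s * d * e),
      D.gm F' = D.gm (F ∘ γ) ∧ F' z = F (γ z) := by
    intro e F hF
    induction hF using Submodule.pow_induction_on_left' with
    | algebraMap c =>
      refine ⟨algebraMap k _ c, ?_, rfl, rfl⟩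
      rw [Algebra.algebraMap_eq_smul_one]
      exact Submodule.smul_mem _ c D.one_mem
    | add a b _ _ _ ha hb =>
      obtain ⟨a', ha', ea, za⟩ := ha
      obtain ⟨b', hb', eb, zb⟩ := hb
      exact ⟨a' + b', add_mem ha' hb', by rw [map_add, ea, eb, ← map_add]; rfl, by
        rw [Pi.add_apply, Pi.add_apply, za, zb]⟩
    | mem_mul a ha e b _ hb =>
      obtain ⟨a', ha', ea, za⟩ := h a ha
      obtain ⟨b', hb', eb, zb⟩ := hb
      refine ⟨a' * b', ?_, by rw [map_mul, ea, eb, ← map_mul]; rfl, by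
        rw [Pi.mul_apply, Pi.mul_apply, za, zb]⟩
      rw [Nat.mul_succ, add_comm]
      exact D.mul_mem _ _ _ _ ha' hb'
  obtain ⟨l, hl⟩ := D.bpf (γ z)
  have hb : D.X l ^ 2 ^ s ∈ D.G (2 ^ s) := by simpa using D.pow_mem (D.X_mem l) (2 ^ s)
  obtain ⟨b', hb', eb, zb⟩ := h _ hb
  obtain ⟨e, he'⟩ := Nat.exists_eq_add_of_le (Nat.lt_two_pow_self (n := i)).le
  have hF : f * (D.X l ^ 2 ^ s) ^ e ∈ D.G (2 ^ s) ^ 2 ^ i := by
    rw [← D.G_pow2, ← pow_mul, ← pow_add, D.G_pow2, pow_add, he', mul_add]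
    exact D.mul_mem _ _ _ _ hf (D.pow_mem hb e)
  obtain ⟨F', hF', eF, zF⟩ := key _ _ hF
  have h1 : f' * b' ^ e ∈ D.G (2 ^ s * d * 2 ^ i) := by
    rw [he', mul_add, mul_right_comm]
    exact D.mul_mem _ _ _ _ hf' (D.pow_mem hb' e)
  have h2 : F' = f' * b' ^ e := D.gm_inj_G hF' h1 (by
    rw [eF, map_mul, map_pow, he, eb, ← map_pow, ← map_mul]
    rfl)
  rw [h2, Pi.mul_apply, Pi.mul_apply, Pi.pow_apply, Pi.pow_apply, zb] at zF
  exact mul_right_cancel₀ (pow_ne_zero e (pow_ne_zero _ hl)) zF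

end TD

end M4.CP
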