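import Pool.Agent.Lib.MP_33b3f9_ag.M4.CP.Defs

/-!
Degrees of field endomorphisms from the growth of a filtration.
-/

set_option autoImplicit false
set_option linter.unusedSectionVars false

namespace M4.CP

open Polynomial Filter

variable {k K : Type} [Field k] [Field K] [Algebra k K]

/-- The spaces `G n / X₀ ^ n` inside the function field. -/
structure Grow (p : ℕ) (P : ℕ → Submodule k K) : Prop where
  p_odd : ¬ p ∣ 2
  prime : p.Prime
  fin : ∀ n, FiniteDimensional k (P n)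
  one0 : (1 : K) ∈ P 0
  one1 : (1 : K) ∈ P 1
  mul : ∀ n m, P n * P m ≤ P (n + m)
  le : ∀ n, 1 ≤ n → Module.finrank k (P n) ≤ (4 * n) ^ 4
  eq : ∀ n, ¬ p ∣ n → Module.finrank k (P n) = (4 * n) ^ 4
  pow2 : ∀ s, P 1 ^ 2 ^ s = P (2 ^ s)
  frac : ∀ c : K, ∃ n, ∃ a ∈ P n, ∃ b ∈ P n, b ≠ 0 ∧ c * b = a

namespace Grow

variable {p : ℕ} {P : ℕ → Submodule k K}

theorem grow_mul_mem (h : Grow p P) {n m : ℕ} {x y : K} (hx : x ∈ P n) (hy : y ∈ P m) :
    x * y ∈ P (n + m) :=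
  h.mul n m (Submodule.mul_mem_mul hx hy)

theorem mono (h : Grow p P) : Monotone P := by
  refine monotone_nat_of_le_succ fun n x hx => ?_
  simpa using h.grow_mul_mem hx h.one1

theorem pow_le (h : Grow p P) (n m : ℕ) : P n ^ m ≤ P (n * m) := by
  induction m with
  | zero => simpa using h.one0
  | succ m ih =>
    rw [pow_succ, Nat.mul_succ]
    exact (Submodule.mul_le.2 fun x hx y hy => h.grow_mul_mem (ih hx) hy)

theorem grow_denom (h : Grow p P) (s : Finset K) :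
    ∃ e : ℕ, ∃ b ∈ P e, b ≠ 0 ∧ ∀ v ∈ s, b * v ∈ P e := by
  classical
  induction s using Finset.induction_on with
  | empty => exact ⟨0, 1, h.one0, one_ne_zero, fun v hv => absurd hv (Finset.notMem_empty v)⟩
  | insert v s _ ih =>
    obtain ⟨e, b, hb, hb0, hs⟩ := ih
    obtain ⟨n, a', ha', b', hb', hb0', hv⟩ := h.frac v
    refine ⟨e + n, b * b', h.grow_mul_mem hb hb', mul_ne_zero hb0 hb0', fun w hw => ?_⟩
    rcases Finset.mem_insert.1 hw with rfl | hw
    · rw [mul_assoc, mul_comm b', hv]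
      exact h.grow_mul_mem hb ha'
    · rw [mul_right_comm]
      exact h.grow_mul_mem (hs w hw) hb'

theorem grow_le_pow (h : Grow p P) (e : ℕ) : P e ≤ P 1 ^ 2 ^ e := by
  rw [h.pow2]
  exact h.mono Nat.lt_two_pow_self.le

/-- `P n ≤ P (2 ^ s) = P 1 ^ 2 ^ s`; a common denominator for finitely many elements. -/
theorem denom (h : Grow p P) (V : Submodule k K) [FiniteDimensional k V] :
    ∃ e : ℕ, ∃ b ∈ P 1 ^ e, b ≠ 0 ∧ ∀ v ∈ V, b * v ∈ P 1 ^ e := by
  obtain ⟨s, hs⟩ := (Submodule.fg_iff_finiteDimensional V).2 inferInstance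
  obtain ⟨e, b, hb, hb0, hv⟩ := h.grow_denom s
  refine ⟨2 ^ e, b, h.grow_le_pow e hb, hb0, fun v hvV => h.grow_le_pow e ?_⟩
  rw [← hs] at hvV
  induction hvV using Submodule.span_induction with
  | mem x hx => exact hv x hx
  | zero => rw [mul_zero]; exact zero_mem _
  | add x y _ _ hx hy => rw [mul_add]; exact add_mem hx hy
  | smul c x _ hx => rw [mul_smul_comm]; exact Submodule.smul_mem _ c hx

theorem grow_map_pow (h : Grow p P) (φ : K →ₐ[k] K) (t : K) (d : ℕ)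
    (hφ : ∀ c ∈ P 1, φ c * t ∈ P d) (n : ℕ) : ∀ x ∈ P 1 ^ n, φ x * t ^ n ∈ P (d * n) := by
  induction n with
  | zero =>
    intro x hx
    rw [pow_zero, Submodule.mem_one] at hx
    obtain ⟨c, rfl⟩ := hx
    rw [pow_zero, mul_one, AlgHom.commutes, Algebra.algebraMap_eq_smul_one]
    exact Submodule.smul_mem _ c h.one0
  | succ n ih =>
    intro x hx
    rw [pow_succ] at hx
    refine Submodule.mul_induction_on hx (fun y hy z hz => ?_) (fun y z hy hz => ?_)
    · rw [map_mul, pow_succ, mul_mul_mul_comm, Nat.mul_succ]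
      exact h.grow_mul_mem (ih y hy) (hφ z hz)
    · rw [map_add, add_mul]
      exact add_mem hy hz

theorem grow_num {r c d : ℕ} (H : ∀ m : ℕ, r * (4 * 2 ^ m) ^ 4 ≤ (4 * (c + d * 2 ^ m)) ^ 4) :
    r ≤ d ^ 4 := by
  by_contra hr
  have hr' : d ^ 4 + 1 ≤ r := by omega
  set M := 4 * c * d ^ 3 + 6 * c ^ 2 * d ^ 2 + 4 * c ^ 3 * d + c ^ 4 with hM
  have h1 := H M
  have h2 : M < 2 ^ M := Nat.lt_two_pow_self
  generalize 2 ^ M = n at h1 h2
  have hn : 1 ≤ n := by omega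
  have h3 : (d ^ 4 + 1) * (4 * n) ^ 4 ≤ (4 * (c + d * n)) ^ 4 :=
    (Nat.mul_le_mul_right _ hr').trans h1
  have h4 : (d ^ 4 + 1) * n ^ 4 ≤ (c + d * n) ^ 4 := by
    rw [mul_pow, mul_pow, mul_left_comm] at h3
    exact Nat.le_of_mul_le_mul_left h3 (by norm_num)
  have e2 : n ^ 2 ≤ n ^ 3 := Nat.pow_le_pow_right hn (by norm_num)
  have e1 : n ≤ n ^ 3 := Nat.le_self_pow (by norm_num) n
  have e0 : 1 ≤ n ^ 3 := hn.trans e1
  have h5 : (c + d * n) ^ 4 ≤ d ^ 4 * n ^ 4 + M * n ^ 3 := by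
    have a2 := Nat.mul_le_mul_left (6 * c ^ 2 * d ^ 2) e2
    have a1 := Nat.mul_le_mul_left (4 * c ^ 3 * d) e1
    have a0 := Nat.mul_le_mul_left (c ^ 4) e0
    calc (c + d * n) ^ 4 = d ^ 4 * n ^ 4 + (4 * c * d ^ 3 * n ^ 3 + 6 * c ^ 2 * d ^ 2 * n ^ 2 +
          4 * c ^ 3 * d * n + c ^ 4 * 1) := by ring
      _ ≤ d ^ 4 * n ^ 4 + (4 * c * d ^ 3 * n ^ 3 + 6 * c ^ 2 * d ^ 2 * n ^ 3 +
          4 * c ^ 3 * d * n ^ 3 + c ^ 4 * n ^ 3) := by omega
      _ = d ^ 4 * n ^ 4 + M * n ^ 3 := by rw [hM]; ring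
  have h6 : M * n ^ 3 < n * n ^ 3 := Nat.mul_lt_mul_of_pos_right h2 e0
  have h7 : (d ^ 4 + 1) * n ^ 4 = d ^ 4 * n ^ 4 + n * n ^ 3 := by ring
  omega

/-- Let `e 1, …, e r` be independent over `F = φ K`, `b e i ∈ P c`. The map
`(a i) ↦ ∑ b e i * φ (a i) * t ^ n` from `(P 1 ^ n) ^ r` to `P (c + d n)` is injective; `n = 2 ^ s`:
`r (4 n) ^ 4 ≤ (4 (c + d n)) ^ 4` for all `s`, so `r ≤ d ^ 4`. Conclude with
`Module.finite_of_rank_eq_nat`-type lemmas (`rank_le`, `Module.rank_lt_aleph0_iff`). -/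
theorem deg_le (h : Grow p P) (φ : K →ₐ[k] K) (t : K) (ht : t ≠ 0) (d : ℕ)
    (hφ : ∀ c ∈ P 1, φ c * t ∈ P d) :
    FiniteDimensional φ.fieldRange K ∧ Module.finrank φ.fieldRange K ≤ d ^ 4 := by
  have key : Module.rank φ.fieldRange K ≤ (d ^ 4 : ℕ) := by
    refine rank_le fun s hs => ?_
    obtain ⟨e, b, -, hb0, hv⟩ := h.grow_denom s
    refine grow_num (c := e + 1) fun m => ?_
    have hp : ¬ p ∣ 2 ^ m := fun hd => h.p_odd (h.prime.dvd_of_dvd_pow hd)
    have := h.fin (2 ^ m)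
    have := h.fin (e + 1 + d * 2 ^ m)
    have hmem : ∀ a : s → P (2 ^ m),
        ∑ i : s, b * i * (φ (a i) * t ^ 2 ^ m) ∈ P (e + 1 + d * 2 ^ m) := fun a =>
      Submodule.sum_mem _ fun i _ => h.grow_mul_mem (h.mono (Nat.le_succ e) (hv i i.2))
        (h.grow_map_pow φ t d hφ _ _ (by rw [h.pow2]; exact (a i).2))
    let L : (s → P (2 ^ m)) →ₗ[k] P (e + 1 + d * 2 ^ m) :=
      { toFun := fun a => ⟨_, hmem a⟩
        map_add' := fun a a' => Subtype.ext (by
          simp [mul_add, add_mul, Finset.sum_add_distrib])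
        map_smul' := fun c a => Subtype.ext (by
          simp [Finset.smul_sum]) }
    have hL : Function.Injective L := by
      rw [injective_iff_map_eq_zero]
      intro a ha
      have h1 : ∑ i : s, b * i * (φ (a i) * t ^ 2 ^ m) = 0 := congrArg Subtype.val ha
      have h2 : b * t ^ 2 ^ m * ∑ i : s, φ (a i) * i = 0 := by
        rw [← h1, Finset.mul_sum]
        exact Finset.sum_congr rfl fun i _ => by ring
      have h3 := (mul_eq_zero.1 h2).resolve_left (mul_ne_zero hb0 (pow_ne_zero _ ht))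
      have h4 := Fintype.linearIndependent_iff.1 hs
        (fun i => (⟨φ (a i), AlgHom.mem_fieldRange.2 ⟨_, rfl⟩⟩ : φ.fieldRange)) h3
      funext i
      have h5 : φ (a i) = 0 := congrArg Subtype.val (h4 i)
      exact Subtype.ext ((map_eq_zero φ).1 h5)
    have h6 := LinearMap.finrank_le_finrank_of_injective hL
    rw [Module.finrank_pi_fintype, Finset.sum_const, Finset.card_univ, Fintype.card_coe,
      smul_eq_mul, h.eq _ hp] at h6
    exact h6.trans (h.le _ (by omega))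
  exact ⟨Module.rank_lt_aleph0_iff.1 (key.trans_lt Cardinal.natCast_lt_aleph0),
    Module.finrank_le_of_rank_le key⟩

/-- Minimal polynomial of `u` over `φ K`, constant coefficient nonzero, denominators cleared with
`frac` (common denominator). -/
theorem rel (h : Grow p P) (φ : K →ₐ[k] K) [FiniteDimensional φ.fieldRange K] (u : K)
    (hu : u ≠ 0) : ∃ (r e : ℕ) (a : ℕ → K), (∀ i, a i ∈ P e) ∧ a 0 ≠ 0 ∧
      ∑ i ∈ Finset.range (r + 1), φ (a i) * u ^ i = 0 := by
  classical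
  have hi : IsIntegral φ.fieldRange u := IsIntegral.of_finite _ u
  set q := minpoly φ.fieldRange u with hq
  have hc : ∀ i, ∃ c, φ c = (q.coeff i : K) := fun i => AlgHom.mem_fieldRange.1 (q.coeff i).2
  choose c hc using hc
  obtain ⟨e, b, -, hb0, hv⟩ := h.grow_denom ((Finset.range (q.natDegree + 1)).image c)
  refine ⟨q.natDegree, e, fun i => b * c i, fun i => ?_, mul_ne_zero hb0 fun h0 => ?_, ?_⟩
  · by_cases hi' : i ∈ Finset.range (q.natDegree + 1)
    · exact hv _ (Finset.mem_image_of_mem c hi')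
    · have h1 : q.coeff i = 0 := coeff_eq_zero_of_natDegree_lt (by simpa using hi')
      have h2 : c i = 0 := (map_eq_zero φ).1 (by rw [hc, h1]; rfl)
      change b * c i ∈ P e
      rw [h2, mul_zero]
      exact zero_mem _
  · refine minpoly.coeff_zero_ne_zero hi hu (Subtype.ext ?_)
    rw [← hq, ← hc, h0, map_zero]
    rfl
  · have h1 := minpoly.aeval φ.fieldRange u
    rw [← hq, aeval_eq_sum_range] at h1
    have h2 : ∑ i ∈ Finset.range (q.natDegree + 1), φ (b * c i) * u ^ i =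
        φ b * ∑ i ∈ Finset.range (q.natDegree + 1), q.coeff i • u ^ i := by
      rw [Finset.mul_sum]
      refine Finset.sum_congr rfl fun i _ => ?_
      rw [map_mul, hc, mul_assoc]
      rfl
    rw [h2, h1, mul_zero]

end Grow

end M4.CP
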