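import Pool.Agent.Lib.MP_33b3f9_ag.M4.CP.Grow
import Pool.Agent.Lib.MP_33b3f9_ag.M4.CP.HF

/-!
A common section.
-/

set_option autoImplicit false
set_option linter.unusedSectionVars false

namespace M4.CP

open Polynomial Filter

variable {k K : Type} [Field k] [Field K] [Algebra k K]

theorem grow3_ineq {e d n : ℕ} (h : (e + d) ^ 4 < n) : (e + d * n) ^ 4 < n ^ 4 + (d * n) ^ 4 := by
  have h0 : 0 < n := by omega
  have h1 : n ^ 2 ≤ n ^ 3 := Nat.pow_le_pow_right h0 (by norm_num)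
  have h2 : n ≤ n ^ 3 := Nat.le_self_pow (by norm_num) n
  have h3 : 1 ≤ n ^ 3 := h0.trans_le h2
  calc (e + d * n) ^ 4 = 4 * e * d ^ 3 * n ^ 3 + 6 * e ^ 2 * d ^ 2 * n ^ 2 + 4 * e ^ 3 * d * n +
        e ^ 4 * 1 + (d * n) ^ 4 := by ring
    _ ≤ 4 * e * d ^ 3 * n ^ 3 + 6 * e ^ 2 * d ^ 2 * n ^ 3 + 4 * e ^ 3 * d * n ^ 3 +
        e ^ 4 * n ^ 3 + (d * n) ^ 4 + d ^ 4 * n ^ 3 := le_add_right (by gcongr)
    _ = (e + d) ^ 4 * n ^ 3 + (d * n) ^ 4 := by ring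
    _ < n * n ^ 3 + (d * n) ^ 4 := by gcongr
    _ = _ := by ring

namespace Grow

variable {p : ℕ} {P : ℕ → Submodule k K}

/-- `Q = {φ c * t, c ∈ P 1}`; `hf` for `Q` and `P 1 ^ d`, `denom` for `(Q ⊔ P 1 ^ d) ^ N`: there are
`b ≠ 0`, `b ∈ P e`, with `b Q ^ n ≤ P (e + d n)` for `n ≥ N`. For `n = 2 ^ s` large the subspaces
`b Q ^ n` (dimension `(4 n) ^ 4`, `Q ^ n = φ (P n) t ^ n`) and `b P (d n)` (dimension `(4 d n) ^ 4`) of
`P (e + d n)` meet (`Submodule.finrank_sup_add_finrank_inf_eq`). -/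
theorem common (h : Grow p P) (φ : K →ₐ[k] K) (t : K) (ht : t ≠ 0) (d : ℕ) (hd : ¬ p ∣ d)
    (hv : ∀ O : ValuationSubring K, (∀ e : k, algebraMap k K e ∈ O) →
      ∀ g ∈ P 1, ∃ x ∈ P 1 ^ d, ∃ c ∈ O, φ g * t = c * x) :
    ∃ s : ℕ, ∃ c ∈ P (2 ^ s), c ≠ 0 ∧ φ c * t ^ 2 ^ s ∈ P (d * 2 ^ s) := by
  have := h.fin
  have hd0 : 0 < d := Nat.pos_of_ne_zero fun e => hd (e ▸ dvd_zero p)
  have hle : ∀ n, P 1 ^ n ≤ P n := fun n => by simpa using h.pow_le 1 n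
  obtain ⟨Q, hQ⟩ : ∃ Q, Q = (P 1).map (LinearMap.mulRight k t ∘ₗ φ.toLinearMap) := ⟨_, rfl⟩
  have : FiniteDimensional k Q := hQ ▸ inferInstance
  have hQn : ∀ n, ∀ c ∈ P 1 ^ n, φ c * t ^ n ∈ Q ^ n := by
    intro n
    induction n with
    | zero =>
      intro c hc
      obtain ⟨a, rfl⟩ := Submodule.mem_one.1 hc
      exact Submodule.mem_one.2 ⟨a, by rw [pow_zero, mul_one, AlgHom.commutes]⟩
    | succ n ih =>
      intro c hc
      rw [pow_succ] at hc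
      refine Submodule.mul_induction_on hc (fun x hx y hy => ?_) fun x y hx hy => ?_
      · rw [map_mul, pow_succ, pow_succ, mul_mul_mul_comm]
        exact Submodule.mul_mem_mul (ih x hx) (hQ ▸ ⟨y, hy, rfl⟩)
      · rw [map_add, add_mul]
        exact add_mem hx hy
  obtain ⟨N, hN⟩ := hf Q (P 1 ^ d) fun O hO x hx => by
    obtain ⟨g, hg, rfl⟩ := hQ ▸ hx
    exact hv O hO g hg
  have : FiniteDimensional k ↥((Q ⊔ P 1 ^ d) ^ N) := Module.Finite.iff_fg.2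
    (((Module.Finite.iff_fg.1 ‹_›).sup ((Module.Finite.iff_fg.1 (h.fin 1)).pow d)).pow N)
  obtain ⟨e, b, hb, hb0, hbV⟩ := h.denom ((Q ⊔ P 1 ^ d) ^ N)
  obtain ⟨s, hs⟩ : ∃ s, N + (e + d) ^ 4 < 2 ^ s := ⟨_, Nat.lt_two_pow_self⟩
  have hp : ¬ p ∣ 2 ^ s := fun e => h.p_odd (h.prime.dvd_of_dvd_pow e)
  refine ⟨s, ?_⟩
  have hP2 := h.pow2 s
  generalize 2 ^ s = n at hs hp hP2
  have hA : ∀ c ∈ P n, b * (φ c * t ^ n) ∈ P (e + d * n) := by
    intro c hc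
    obtain ⟨m, rfl⟩ : ∃ m, n = N + m := ⟨n - N, by omega⟩
    have h1 := ((pow_le_pow_left' (le_sup_left : Q ≤ _) _).trans (hN m)) (hQn _ c (hP2 ▸ hc))
    refine h.mono (show e + d * m ≤ _ by nlinarith) ?_
    refine Submodule.mul_induction_on h1 (fun x hx y hy => ?_) fun x y hx hy => ?_
    · rw [← mul_assoc]
      exact h.mul _ _ (Submodule.mul_mem_mul (hle _ (hbV x hx)) (hle _ (by rwa [pow_mul])))
    · rw [mul_add]
      exact add_mem hx hy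
  let fA : K →ₗ[k] K := LinearMap.mulLeft k b ∘ₗ LinearMap.mulRight k (t ^ n) ∘ₗ φ.toLinearMap
  have iA : Function.Injective fA := fun x y e =>
    φ.injective (mul_right_cancel₀ (pow_ne_zero n ht) (mul_left_cancel₀ hb0 e))
  have iB : Function.Injective (LinearMap.mulLeft k b) := fun x y e => mul_left_cancel₀ hb0 e
  have h1 := Submodule.finrank_sup_add_finrank_inf_eq ((P n).map fA)
    ((P (d * n)).map (LinearMap.mulLeft k b))
  rw [← (Submodule.equivMapOfInjective _ iA _).finrank_eq,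
    ← (Submodule.equivMapOfInjective _ iB _).finrank_eq, h.eq _ hp,
    h.eq _ (h.prime.not_dvd_mul hd hp)] at h1
  have h2 : (P n).map fA ⊔ (P (d * n)).map (LinearMap.mulLeft k b) ≤ P (e + d * n) := by
    refine sup_le ?_ ?_
    · rintro _ ⟨c, hc, rfl⟩
      exact hA c hc
    · rintro _ ⟨c, hc, rfl⟩
      exact h.mul _ _ (Submodule.mul_mem_mul (hle _ hb) hc)
  have h3 := (Submodule.finrank_mono h2).trans
    (h.le _ (by have := mul_pos hd0 (show 0 < n by omega); omega))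
  have h4 := grow3_ineq (e := e) (d := d) (n := n) (by omega)
  have h5 : (P n).map fA ⊓ (P (d * n)).map (LinearMap.mulLeft k b) ≠ ⊥ := fun h0 => by
    rw [h0, finrank_bot] at h1
    simp only [mul_pow 4] at h1 h3
    omega
  obtain ⟨_, ⟨⟨c, hc, rfl⟩, c', hc', h6⟩, h7⟩ := Submodule.exists_mem_ne_zero_of_ne_bot h5
  exact ⟨c, hc, fun h0 => h7 (by rw [h0, map_zero]),
    (mul_left_cancel₀ hb0 h6 : c' = φ c * t ^ n) ▸ hc'⟩

end Grow

end M4.CP
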