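import Pool.Agent.Lib.MP_33b3f9_ag.M4.CP.Defs

/-!
Homogeneous integral dependence from valuations.
-/

set_option autoImplicit false
set_option linter.unusedSectionVars false

namespace M4.CP

open Polynomial Filter

variable {k K : Type} [Field k] [Field K] [Algebra k K]

/-- One element. With `S = k x + Q` let `A` be the ring of all `y` with `y x ^ n ∈ S ^ n` for some
`n` and `I` the ideal of all `y` with `y x ^ (n + 1) ∈ Q S ^ n` for some `n`. If `I` were proper,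
some valuation subring would contain `A` and have `I` in its maximal ideal; but `1 = c (g / x)`. -/
theorem hf_one (Q : Submodule k K) (x : K)
    (h : ∀ O : ValuationSubring K, (∀ e : k, algebraMap k K e ∈ O) →
      ∃ g ∈ Q, ∃ c ∈ O, x = c * g) :
    ∃ n : ℕ, x ^ (n + 1) ∈ Q * (Submodule.span k {x} ⊔ Q) ^ n := by
  obtain rfl | hx := eq_or_ne x 0
  · exact ⟨0, by simp⟩
  obtain ⟨S, hS⟩ : ∃ S, S = Submodule.span k {x} ⊔ Q := ⟨_, rfl⟩
  have hxS : x ∈ S := hS ▸ Submodule.mem_sup_left (Submodule.mem_span_singleton_self x)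
  have hQ : Q ≤ S := hS ▸ le_sup_right
  rw [← hS]
  have up : ∀ (P : Submodule k K) (z : K) (n m : ℕ), z ∈ P * S ^ n → z * x ^ m ∈ P * S ^ (n + m) :=
    fun P z n m hz => by
      rw [pow_add, ← mul_assoc]
      exact Submodule.mul_mem_mul hz (Submodule.pow_mem_pow S hxS m)
  have ad : ∀ (P : Submodule k K) (y z : K) (n m : ℕ), y * x ^ n ∈ P * S ^ n →
      z * x ^ m ∈ P * S ^ m → (y + z) * x ^ (n + m) ∈ P * S ^ (n + m) := fun P y z n m hy hz => by
    have h1 := up P _ n m hy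
    have h2 := up P _ m n hz
    rw [mul_assoc, ← pow_add] at h1 h2
    rw [add_comm m] at h2
    rw [add_mul]
    exact add_mem h1 h2
  have mu : ∀ (P : Submodule k K) (y z : K) (n m : ℕ), y * x ^ n ∈ 1 * S ^ n →
      z * x ^ m ∈ P * S ^ m → y * z * x ^ (n + m) ∈ P * S ^ (n + m) := fun P y z n m hy hz => by
    have h1 := Submodule.mul_mem_mul hy hz
    rwa [mul_mul_mul_comm y, mul_mul_mul_comm 1, one_mul, ← pow_add, ← pow_add] at h1
  let A : Subring K :=
    { carrier := {y | ∃ n : ℕ, y * x ^ n ∈ 1 * S ^ n}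
      one_mem' := ⟨0, by simp⟩
      zero_mem' := ⟨0, by simp⟩
      mul_mem' := fun ⟨n, hn⟩ ⟨m, hm⟩ => ⟨_, mu 1 _ _ n m hn hm⟩
      add_mem' := fun ⟨n, hn⟩ ⟨m, hm⟩ => ⟨_, ad 1 _ _ n m hn hm⟩
      neg_mem' := fun ⟨n, hn⟩ => ⟨n, by rw [neg_mul]; exact neg_mem hn⟩ }
  let I : Ideal A :=
    { carrier := {y | ∃ n : ℕ, (y : K) * x * x ^ n ∈ Q * S ^ n}
      zero_mem' := ⟨0, by simp⟩
      add_mem' := fun ⟨n, hn⟩ ⟨m, hm⟩ => ⟨_, by
        rw [Subring.coe_add, add_mul]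
        exact ad Q _ _ n m hn hm⟩
      smul_mem' := fun ⟨y, n, hn⟩ z ⟨m, hm⟩ => ⟨_, by
        have h1 := mu Q _ _ n m hn hm
        rw [← mul_assoc y] at h1
        exact h1⟩ }
  by_cases hI : I = ⊤
  · obtain ⟨n, hn⟩ : (1 : A) ∈ I := hI ▸ Submodule.mem_top
    exact ⟨n, by rwa [OneMemClass.coe_one, one_mul, ← pow_succ'] at hn⟩
  obtain ⟨V, h1, h2⟩ := I.image_subset_nonunits_valuationSubring hI
  obtain ⟨g, hg, c, hc, h3⟩ := h V fun e => h1 ⟨0, by simp⟩
  have h4 : g / x ∈ V.nonunits := h2 ⟨⟨g / x, 1, by simpa [hx] using hQ hg⟩,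
    ⟨0, by simpa [hx] using hg⟩, rfl⟩
  rw [ValuationSubring.mem_nonunits_iff] at h4
  have h5 := (mul_le_of_le_one_left' ((V.valuation_le_one_iff c).2 hc)).trans_lt h4
  rw [← map_mul, ← mul_div_assoc, ← h3, div_self hx, map_one] at h5
  exact absurd h5 (lt_irrefl _)

end M4.CP
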