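import Pool.Agent.Lib.MP_33b3f9_ag.M4.CP.QO2
import Pool.Agent.Lib.MP_33b3f9_ag.M4.CP.Hts
import Pool.Agent.Lib.MP_33b3f9_ag.M4.CP.Ka

/-!
Global heights of points.
-/

set_option autoImplicit false
set_option linter.unusedSectionVars false

namespace M4.CP

open Polynomial Filter

namespace TD

variable {k : Type} [Field k] [IsAlgClosed k] {p : ℕ} [Fact p.Prime] [CharP k p]
  {Vt W ι : Type} [AddCommGroup Vt] [Module ℚ Vt] [AddCommGroup W] [Fintype ι]
  (D : TD k p Vt W ι)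

open Classical in
/-- the order at `w` of a local frame with respect to the global frame `s` -/
noncomputable def lo (H : HtSys k D.KK) (w : H.Pl) (a : Vt × W → Vt × W) (s : D.FFˣ) : ℤ :=
  if h : ∃ e : D.KK, ∃ s' : D.FFˣ, D.IsFr (H.ring w) a s' ∧ (s' : D.FF) = D.val e * s then
    H.ord w h.choose else 0

open Classical in
/-- the height -/
noncomputable def ht (H : HtSys k D.KK) (a : Vt × W → Vt × W) : ℤ :=
  if h : ∃ s, D.IsFr ⊤ a s then -∑ᶠ w, D.lo H w a h.choose else 0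

variable {D} (H : HtSys k D.KK) {a b c e : Vt × W → Vt × W}

theorem over_ring (w : H.Pl) : D.Over (H.ring w) := H.const_mem w

theorem ht1_cancel {x y : D.KK} {s : D.FF} (hs : IsUnit s) (h : D.val x * s = D.val y * s) :
    x = y :=
  D.val_inj (hs.mul_right_cancel h)

theorem ht1_ne {x : D.KK} {s : D.FF} {s' : D.FFˣ} (h : (s' : D.FF) = D.val x * s) : x ≠ 0 := by
  rintro rfl
  rw [map_zero, zero_mul] at h
  exact s'.ne_zero h

theorem ht1_ord_one (w : H.Pl) : H.ord w 1 = 0 := by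
  have h := H.ord_mul w (f := 1) (g := 1) one_ne_zero one_ne_zero
  rw [mul_one] at h
  omega

theorem ht1_ord_pow (w : H.Pl) {x : D.KK} (hx : x ≠ 0) (n : ℕ) :
    H.ord w (x ^ n) = n * H.ord w x := by
  induction n with
  | zero => rw [pow_zero, ht1_ord_one]; simp
  | succ n ih =>
    rw [pow_succ, H.ord_mul w (pow_ne_zero n hx) hx, ih]
    push_cast
    ring

theorem ht1_unit_fr (ha : D.InA a) :
    ∃ i, ∃ s : D.FFˣ, D.IsFr ⊤ a s ∧ (s : D.FF) = D.gm (D.X i ∘ a) := by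
  obtain ⟨i, hi⟩ := ha.exists_unit
  refine ⟨i, hi.unit, isFr_top fun j => ?_, hi.unit_spec⟩
  rw [hi.unit_spec]
  exact ha.ratio hi j

theorem ord_unit (w : H.Pl) {x : D.KK} (h0 : x ≠ 0) (h1 : x ∈ H.ring w) (h2 : x⁻¹ ∈ H.ring w) :
    H.ord w x = 0 := by
  have h3 : 0 ≤ H.ord w x := ((H.mem_ring w x).1 h1).resolve_left h0
  have h4 : 0 ≤ H.ord w x⁻¹ := ((H.mem_ring w x⁻¹).1 h2).resolve_left (inv_ne_zero h0)
  rw [H.ord_inv w h0] at h4
  omega

/-- `IsFr.mk_eq`, `mk_eq_iff`, `ord_unit` -/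
theorem lo_eq {w : H.Pl} {s s' : D.FFˣ} {x : D.KK} (h : D.IsFr (H.ring w) a s')
    (hx : (s' : D.FF) = D.val x * s) : D.lo H w a s = H.ord w x := by
  have hex : ∃ e : D.KK, ∃ s' : D.FFˣ, D.IsFr (H.ring w) a s' ∧ (s' : D.FF) = D.val e * s :=
    ⟨x, s', h, hx⟩
  unfold lo
  rw [dif_pos hex]
  obtain ⟨t, h1, h2⟩ := hex.choose_spec
  obtain ⟨u, hu1, hu2, hu0, hu⟩ := mk_eq_iff.1 (h1.mk_eq h)
  have h3 : hex.choose = u * x :=
    ht1_cancel s.isUnit (by rw [map_mul, mul_assoc, ← hx, ← hu, ← h2])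
  rw [h3, H.ord_mul w hu0 (ht1_ne hx), ord_unit H w hu0 hu1 hu2, zero_add]

theorem exists_lo (w : H.Pl) {s : D.FFˣ} (h : D.IsFr ⊤ a s) : ∃ x : D.KK, x ≠ 0 ∧
    ∃ s' : D.FFˣ, D.IsFr (H.ring w) a s' ∧ (s' : D.FF) = D.val x * s := by
  obtain ⟨s', hs'⟩ := h.inA.exists_fr (H.ring w)
  obtain ⟨x, -, -, hx0, hx⟩ := mk_eq_iff.1 (hs'.top.mk_eq h)
  exact ⟨x, hx0, s', hs', hx⟩

/-- outside the supports of the nonzero coordinates `s` itself is a local frame -/
theorem lo_fin {s : D.FFˣ} (h : D.IsFr ⊤ a s) : {w | D.lo H w a s ≠ 0}.Finite := by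
  choose x hx using h.1
  obtain ⟨j, d, -, hd⟩ := h.2
  have hd0 : d ≠ 0 := ht1_ne hd
  have hfin : ∀ i, {w | x i ≠ 0 ∧ H.ord w (x i) ≠ 0}.Finite := fun i => by
    by_cases h0 : x i = 0
    · simp [h0]
    · exact (H.fin _ h0).subset fun w hw => hw.2
  refine ((Set.finite_iUnion hfin).union (H.fin d hd0)).subset fun w hw => ?_
  by_contra hn
  apply hw
  simp only [Set.mem_union, Set.mem_iUnion, Set.mem_ofPred_eq, not_or, not_exists, not_and,
    not_not] at hn
  have hfr : D.IsFr (H.ring w) a s := by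
    refine ⟨fun i => ⟨x i, ?_, (hx i).2⟩, j, d, ?_, hd⟩
    · by_cases h0 : x i = 0
      · exact (H.mem_ring w _).2 (Or.inl h0)
      · exact (H.mem_ring w _).2 (Or.inr (hn.1 i h0).ge)
    · exact (H.mem_ring w _).2 (Or.inr hn.2.ge)
  rw [lo_eq H hfr (x := 1) (by rw [map_one, one_mul]), ht1_ord_one]

/-- product formula (`finsum_add_distrib`) -/
theorem ht_eq {s : D.FFˣ} (h : D.IsFr ⊤ a s) : D.ht H a = -∑ᶠ w, D.lo H w a s := by
  have hex : ∃ s, D.IsFr ⊤ a s := ⟨s, h⟩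
  unfold ht
  rw [dif_pos hex]
  have h0 := hex.choose_spec
  generalize hex.choose = t at h0
  obtain ⟨x, -, -, hx0, hx⟩ := mk_eq_iff.1 (h0.mk_eq h)
  have key : ∀ w, D.lo H w a s = D.lo H w a t + H.ord w x := fun w => by
    obtain ⟨y, hy0, s', hs', hy⟩ := exists_lo H w h0
    rw [lo_eq H hs' hy, lo_eq H hs' (x := y * x) (by rw [hy, hx, map_mul, mul_assoc]),
      H.ord_mul w hy0 hx0]
  have h1 : Function.HasFiniteSupport fun w => D.lo H w a t := lo_fin H h0
  have h2 : Function.HasFiniteSupport fun w => H.ord w x := H.fin x hx0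
  rw [finsum_congr key, finsum_add_distrib h1 h2, H.prod x hx0, add_zero]

theorem ht_congr (h : ∀ i z, D.X i (b z) = D.X i (a z)) : D.ht H b = D.ht H a := by
  have hX : ∀ i, D.X i ∘ b = D.X i ∘ a := fun i => funext (h i)
  have hF : ∀ O s, D.IsFr O b s ↔ D.IsFr O a s := fun O s => by
    unfold IsFr
    simp only [hX]
  by_cases hex : ∃ s, D.IsFr ⊤ a s
  · obtain ⟨s, hs⟩ := hex
    rw [ht_eq H hs, ht_eq H ((hF _ _).2 hs)]
    congr 1
    refine finsum_congr fun w => ?_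
    obtain ⟨x, -, s', hs', hx⟩ := exists_lo H w hs
    rw [lo_eq H hs' hx, lo_eq H ((hF _ _).2 hs') hx]
  · have hex' : ¬ ∃ s, D.IsFr ⊤ b s := fun ⟨s, hs⟩ => hex ⟨s, (hF _ _).1 hs⟩
    unfold ht
    rw [dif_neg hex, dif_neg hex']

/-- Global frames `sa sb sc se` with `sa * sb = val x * (sc ^ n * se ^ n)` (`O = ⊤`); at `w` the local
frames give `lo a + lo b + ord x = n * lo c + n * lo e`; sum over `w`. -/
theorem ht_rel (ha : D.InA a) (hb : D.InA b) (hc : D.InA c) (he : D.InA e) (n : ℕ)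
    (h : ∀ O, D.Over O → D.qO O a * D.qO O b = D.qO O c ^ n * D.qO O e ^ n) :
    D.ht H a + D.ht H b = n * D.ht H c + n * D.ht H e := by
  have rel : ∀ O, D.Over O → ∀ sa sb sc se : D.FFˣ, D.IsFr O a sa → D.IsFr O b sb →
      D.IsFr O c sc → D.IsFr O e se → ∃ x : D.KK, x ∈ O ∧ x⁻¹ ∈ O ∧ x ≠ 0 ∧
        (sa : D.FF) * sb = D.val x * ((sc : D.FF) ^ n * (se : D.FF) ^ n) := by
    intro O hO sa sb sc se h1 h2 h3 h4
    have h5 := h O hO
    rw [h1.qO_eq, h2.qO_eq, h3.qO_eq, h4.qO_eq, ← QuotientGroup.mk_pow, ← QuotientGroup.mk_pow,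
      ← QuotientGroup.mk_mul, ← QuotientGroup.mk_mul] at h5
    obtain ⟨x, hx1, hx2, hx0, hx⟩ := mk_eq_iff.1 h5
    refine ⟨x, hx1, hx2, hx0, ?_⟩
    simpa only [Units.val_mul, Units.val_pow_eq_pow_val] using hx
  obtain ⟨sa, hsa⟩ := ha.exists_fr ⊤
  obtain ⟨sb, hsb⟩ := hb.exists_fr ⊤
  obtain ⟨sc, hsc⟩ := hc.exists_fr ⊤
  obtain ⟨se, hse⟩ := he.exists_fr ⊤
  obtain ⟨x, -, -, hx0, hx⟩ := rel ⊤ D.over_top sa sb sc se hsa hsb hsc hse
  have key : ∀ w, D.lo H w a sa + D.lo H w b sb + H.ord w x =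
      n * D.lo H w c sc + n * D.lo H w e se := fun w => by
    obtain ⟨xa, ha0, ta, hta, hxa⟩ := exists_lo H w hsa
    obtain ⟨xb, hb0, tb, htb, hxb⟩ := exists_lo H w hsb
    obtain ⟨xc, hc0, tc, htc, hxc⟩ := exists_lo H w hsc
    obtain ⟨xe, he0, te, hte, hxe⟩ := exists_lo H w hse
    obtain ⟨u, hu1, hu2, hu0, hu⟩ := rel _ (over_ring H w) ta tb tc te hta htb htc hte
    have hun : IsUnit ((sc : D.FF) ^ n * (se : D.FF) ^ n) :=
      (sc.isUnit.pow n).mul (se.isUnit.pow n)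
    have h1 : xa * xb * x = u * (xc ^ n * xe ^ n) := by
      refine ht1_cancel hun ?_
      rw [hxa, hxb, hxc, hxe] at hu
      simp only [map_mul, map_pow]
      linear_combination hu - D.val xa * D.val xb * hx
    have h2 := congrArg (H.ord w) h1
    rw [H.ord_mul w (mul_ne_zero ha0 hb0) hx0, H.ord_mul w ha0 hb0,
      H.ord_mul w hu0 (mul_ne_zero (pow_ne_zero n hc0) (pow_ne_zero n he0)),
      H.ord_mul w (pow_ne_zero n hc0) (pow_ne_zero n he0), ord_unit H w hu0 hu1 hu2,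
      ht1_ord_pow H w hc0, ht1_ord_pow H w he0, zero_add] at h2
    rw [lo_eq H hta hxa, lo_eq H htb hxb, lo_eq H htc hxc, lo_eq H hte hxe]
    exact h2
  have fa : Function.HasFiniteSupport fun w => D.lo H w a sa := lo_fin H hsa
  have fb : Function.HasFiniteSupport fun w => D.lo H w b sb := lo_fin H hsb
  have fab : Function.HasFiniteSupport fun w => D.lo H w a sa + D.lo H w b sb :=
    (Set.Finite.union fa fb).subset (Function.support_add _ _)
  have fx : Function.HasFiniteSupport fun w => H.ord w x := H.fin x hx0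
  have fc : Function.HasFiniteSupport fun w => (n : ℤ) * D.lo H w c sc :=
    (lo_fin H hsc).subset fun w hw => right_ne_zero_of_mul hw
  have fe : Function.HasFiniteSupport fun w => (n : ℤ) * D.lo H w e se :=
    (lo_fin H hse).subset fun w hw => right_ne_zero_of_mul hw
  have h3 := finsum_congr key
  rw [finsum_add_distrib fab fx, finsum_add_distrib fa fb, H.prod x hx0,
    finsum_add_distrib fc fe, ← mul_finsum, ← mul_finsum] at h3
  rw [ht_eq H hsa, ht_eq H hsb, ht_eq H hsc, ht_eq H hse]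
  linear_combination -h3

/-- with respect to a unit coordinate all local terms are nonpositive -/
theorem lo_nonpos (w : H.Pl) {s : D.FFˣ} (h : D.IsFr ⊤ a s) {i : ι}
    (hs : (s : D.FF) = D.gm (D.X i ∘ a)) : D.lo H w a s ≤ 0 := by
  obtain ⟨x, hx0, t, ht, hx⟩ := exists_lo H w h
  obtain ⟨y, hy1, hy⟩ := ht.1 i
  have hy0 : y ≠ 0 := ht1_ne (hs.trans hy)
  have h1 : y * x = 1 :=
    ht1_cancel s.isUnit (by rw [map_mul, mul_assoc, ← hx, ← hy, ← hs, map_one, one_mul])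
  have h2 := H.ord_mul w hy0 hx0
  rw [h1, ht1_ord_one] at h2
  have h3 : 0 ≤ H.ord w y := ((H.mem_ring w y).1 hy1).resolve_left hy0
  rw [lo_eq H ht hx]
  omega

theorem ht_nonneg (ha : D.InA a) : 0 ≤ D.ht H a := by
  obtain ⟨i, s, h, hs⟩ := ht1_unit_fr ha
  rw [ht_eq H h, ← finsum_neg_distrib]
  exact finsum_nonneg fun w => neg_nonneg.2 (lo_nonpos H w h hs)

/-- `s` a unit coordinate. `→`: all `lo` vanish, so the ratios have no pole (`HtSys.pole`); `Ka_le` with
`⊥`. `←`: `s` is a local frame everywhere. -/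
theorem ht_eq_zero (ha : D.InA a) :
    D.ht H a = 0 ↔ ∀ x ∈ D.Ka a, ∃ r : k, x = algebraMap k D.KK r := by
  obtain ⟨i, s, h, hs⟩ := ht1_unit_fr ha
  rw [ht_eq H h]
  constructor
  · intro h0
    rw [← finsum_neg_distrib] at h0
    have f1 : Function.HasFiniteSupport fun w => -D.lo H w a s :=
      (lo_fin H h).subset fun w hw => neg_ne_zero.1 hw
    have h1 : ∀ w, D.lo H w a s = 0 := fun w => by
      have h2 := single_le_finsum w f1 fun w => neg_nonneg.2 (lo_nonpos H w h hs)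
      have h3 := lo_nonpos H w h hs
      rw [h0] at h2
      omega
    have h4 : D.Ka a ≤ ⊥ := by
      refine Ka_le s.isUnit fun j => ?_
      obtain ⟨y, -, hy⟩ := h.1 j
      refine ⟨y, ?_, hy⟩
      by_cases hy0 : y = 0
      · rw [hy0]
        exact zero_mem _
      · obtain ⟨r, hr⟩ := H.pole y hy0 fun w => by
          obtain ⟨x, hx0, t, ht, hx⟩ := exists_lo H w h
          obtain ⟨u, hu1, hu⟩ := ht.1 j
          have h5 : y = u * x :=
            ht1_cancel s.isUnit (by rw [map_mul, mul_assoc, ← hx, ← hu, hy])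
          have hu0 : u ≠ 0 := fun h6 => hy0 (by rw [h5, h6, zero_mul])
          have h7 := h1 w
          rw [lo_eq H ht hx] at h7
          rw [h5, H.ord_mul w hu0 hx0, h7, add_zero]
          exact ((H.mem_ring w u).1 hu1).resolve_left hu0
        exact IntermediateField.mem_bot.2 ⟨r, hr.symm⟩
    intro x hx
    obtain ⟨r, hr⟩ := IntermediateField.mem_bot.1 (h4 hx)
    exact ⟨r, hr.symm⟩
  · intro h0
    have h1 : ∀ w, D.lo H w a s = 0 := fun w => by
      have hfr : D.IsFr (H.ring w) a s := by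
        refine ⟨fun j => ?_, i, 1, (H.ring w).one_mem, by rw [map_one, one_mul, hs]⟩
        obtain ⟨y, -, hy⟩ := h.1 j
        refine ⟨y, ?_, hy⟩
        obtain ⟨r, hr⟩ := h0 y
          (IntermediateField.subset_adjoin _ _ ⟨j, i, hs ▸ s.isUnit, by rw [← hs, hy]⟩)
        rw [hr]
        exact H.const_mem w r
      rw [lo_eq H hfr (x := 1) (by rw [map_one, one_mul]), ht1_ord_one]
    rw [finsum_congr h1, finsum_zero, neg_zero]

end TD

end M4.CP
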