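import Pool.Agent.Lib.MP_33b3f9_ag.M4.CP.Faith

/-!
Separation of points, invariants of all translations, dominance.
-/

set_option autoImplicit false
set_option linter.unusedSectionVars false

namespace M4.CP

open Polynomial Filter

namespace TD

variable {k : Type} [Field k] [IsAlgClosed k] {p : ℕ} [Fact p.Prime] [CharP k p]
  {Vt W ι : Type} [AddCommGroup Vt] [Module ℚ Vt] [AddCommGroup W] [Fintype ι]
  (D : TD k p Vt W ι)

/-- `prop_of_X`: `f (z + u) = c ^ M * f z` on `G M`. For any `w = z + v` take `M` from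
`exists_level v` and apply this to `Uop M v f`: `f (w + u) = c' * f w` on `G M`, `c' ≠ 0`. With
`f = X i * X l ^ (M - 1)`, `X l w ≠ 0`: `X i (w + u) = e w * X i w`, `e w ≠ 0`. `Ka_fix` (`a = id`),
`Ka_id`, `faith`. -/
theorem sep {z u : Vt × W} {c : k} (h : ∀ i, D.X i (z + u) = c * D.X i z) :
    u.1 ∈ D.Lam ∧ u.2 ∈ D.C := by
  have hc : c ≠ 0 := by
    obtain ⟨i, hi⟩ := D.bpf (z + u)
    rw [h i] at hi
    exact left_ne_zero_of_mul hi
  have key : ∀ w : Vt × W, ∃ e : k, e ≠ 0 ∧ ∀ i, D.X i (w + u) = e * D.X i w := by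
    intro w
    obtain ⟨M, hM, h1, h2⟩ := D.exists_level (w - z)
    have h1' : (4 * M) • (w - z).1 ∈ D.Lam := by
      rw [mul_smul]
      exact D.Lam.nsmul_mem h1 4
    have h2' : (4 * M) • (w - z).2 = 0 := by rw [mul_smul, h2, smul_zero]
    have h3 : ∃ c' : k, c' ≠ 0 ∧ ∀ f ∈ D.G M, f (w + u) = c' * f w := by
      have he := pow_ne_zero (4 * M) (D.eps_ne_zero (w - z).1 (z + u).1)
      refine ⟨c ^ M * D.eps (w - z).1 z.1 ^ (4 * M) / D.eps (w - z).1 (z + u).1 ^ (4 * M),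
        div_ne_zero (mul_ne_zero (pow_ne_zero _ hc) (pow_ne_zero _ (D.eps_ne_zero _ _))) he,
        fun f hf => ?_⟩
      have h4 := D.prop_of_X h (D.tr M (w - z) h1' h2' f hf)
      simp only [Uop] at h4
      rw [show z + u + (w - z) = w + u by abel, show z + (w - z) = w by abel] at h4
      rw [div_mul_eq_mul_div, eq_div_iff he]
      linear_combination h4
    obtain ⟨c', hc', h3⟩ := h3
    obtain ⟨l, hl⟩ := D.bpf w
    obtain ⟨M', rfl⟩ : ∃ M', M = 1 + M' := ⟨M - 1, by omega⟩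
    have hmem : ∀ i, D.X i * D.X l ^ M' ∈ D.G (1 + M') := fun i => by
      have := D.mul_mem _ _ _ _ (D.X_mem i) (D.pow_mem (D.X_mem l) M')
      rwa [one_mul] at this
    have h5 : ∀ i, D.X i (w + u) * D.X l (w + u) ^ M' = c' * (D.X i w * D.X l w ^ M') :=
      fun i => h3 _ (hmem i)
    have h6 : D.X l (w + u) ^ M' ≠ 0 := by
      have h7 : c' * (D.X l w * D.X l w ^ M') ≠ 0 :=
        mul_ne_zero hc' (mul_ne_zero hl (pow_ne_zero _ hl))
      rw [← h5 l] at h7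
      exact right_ne_zero_of_mul h7
    refine ⟨c' * D.X l w ^ M' / D.X l (w + u) ^ M',
      div_ne_zero (mul_ne_zero hc' (pow_ne_zero _ hl)) h6, fun i => ?_⟩
    rw [div_mul_eq_mul_div, eq_div_iff h6]
    linear_combination h5 i
  choose e he he' using key
  refine D.faith (AlgHom.ext fun x => ?_)
  exact Ka_fix (a := id) (D.good_trl u) e he (fun i w => he' w i) (by rw [D.Ka_id]; trivial)

/-- `c = f / g` at a level `2 ^ s` (`KK_frac_ge`). The space of `g' ∈ G (2 ^ s)` with `c * g'` the germ of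
an element of `G (2 ^ s)` is nonzero and stable, so everything (`irr`); `eig` for `GK (2 ^ s)`. -/
theorem const {c : D.KK} (h : ∀ x : Vt, D.kp (trl (x, (0 : W))) c = c) :
    ∃ e : k, c = algebraMap k D.KK e := by
  obtain ⟨n0, hn0⟩ := D.KK_frac_ge c
  obtain ⟨f, hf, g, hg, hg0, hfg⟩ := hn0 (2 ^ n0) Nat.lt_two_pow_self.le
  let S : Submodule k (Vt × W → k) :=
    { carrier := {g' | g' ∈ D.G (2 ^ n0) ∧ ∃ f' ∈ D.G (2 ^ n0), D.val c * D.gm g' = D.gm f'}
      zero_mem' := ⟨Submodule.zero_mem _, 0, Submodule.zero_mem _, by simp⟩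
      add_mem' := by
        rintro a b ⟨ha, a', ha', h1⟩ ⟨hb, b', hb', h2⟩
        exact ⟨Submodule.add_mem _ ha hb, a' + b', Submodule.add_mem _ ha' hb', by
          rw [map_add, map_add, mul_add, h1, h2]⟩
      smul_mem' := by
        rintro r a ⟨ha, a', ha', h1⟩
        exact ⟨Submodule.smul_mem _ r ha, r • a', Submodule.smul_mem _ r ha', by
          rw [map_smul, map_smul, mul_smul_comm, h1]⟩ }
  have hU : ∀ (n : ℕ) (u : Vt × W) (a : Vt × W → k), D.gm (Uop D.eps n u a) =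
      D.gm (fun z => D.eps u.1 z.1 ^ (4 * n)) * D.pull (trl u) (D.gm a) := fun n u a => by
    rw [pull_gm (D.good_trl u).1, ← map_mul]
    rfl
  rcases D.irr (2 ^ n0) (D.not_dvd_two_pow n0) S (fun a ha => ha.1) (by
    rintro x hx a ⟨ha, a', ha', h1⟩
    refine ⟨D.tr _ (x, 0) hx (smul_zero _) a ha, _, D.tr _ (x, 0) hx (smul_zero _) a' ha', ?_⟩
    have h2 := val_kp (D.good_trl (x, (0 : W))) c
    rw [h x] at h2
    rw [hU, hU, ← h1, map_mul, ← h2]
    ring) with hS | hS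
  · have : g ∈ S := ⟨hg, f, hf, hfg⟩
    rw [hS] at this
    exact absurd this hg0
  · have := D.grow.fin (2 ^ n0)
    refine eig (D.GK (2 ^ n0)) (D.GK_ne_bot _) c fun v hv => ?_
    obtain ⟨a, ha, h1⟩ := D.mem_GK.1 hv
    rw [← hS] at ha
    obtain ⟨-, a', ha', h2⟩ := ha
    exact D.mem_GK.2 ⟨a', ha', by rw [map_mul, mul_assoc, h1, h2]⟩

/-- Take `j` with `X j ∘ a` a unit; `X i ∘ a = e i * X j ∘ a` on a set `E ∈ ae`, constants `e i`. Take
`z ∈ E` with `z + u ∈ E` (`good_trl`) and apply `sep` at `a z`. -/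
theorem consta {a : Vt × W → Vt × W} (ha : D.InA a) (hadd : ∀ z z', a (z + z') = a z + a z')
    (h : ∀ c ∈ D.Ka a, ∃ e : k, c = algebraMap k D.KK e) (u : Vt × W) :
    (a u).1 ∈ D.Lam ∧ (a u).2 ∈ D.C := by
  obtain ⟨j, hj⟩ := ha.exists_unit
  have h1 : ∀ i, ∃ e : k, ∀ᶠ z in D.ae, D.X i (a z) = e * D.X j (a z) := fun i => by
    obtain ⟨c, hc⟩ := ha.ratio hj i
    obtain ⟨e, rfl⟩ := h c (IntermediateField.subset_adjoin _ _ ⟨i, j, hj, hc⟩)
    refine ⟨e, ?_⟩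
    rw [AlgHom.commutes, ← D.gm.commutes, ← map_mul] at hc
    exact D.gm_eq.1 hc
  choose e he using h1
  have h2 : ∀ᶠ z in D.ae, D.X j (a z) ≠ 0 ∧ ∀ i, D.X i (a z) = e i * D.X j (a z) :=
    (D.isUnit_gm.1 hj).and (eventually_all.2 he)
  obtain ⟨z, ⟨h3, h4⟩, -, h5⟩ := (h2.and ((D.good_trl u).1.eventually h2)).exists
  refine D.sep (z := a z) (c := D.X j (a (z + u)) / D.X j (a z)) fun i => ?_
  have h6 : D.X i (a (z + u)) = e i * D.X j (a (z + u)) := h5 i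
  rw [← hadd, h6, h4 i]
  field_simp

/-- `Ka_fix` with `X_add_of_mem` -/
theorem Ka_pol_fix (a : ℤ[X]) {u : Vt × W} (h1 : D.polV a u.1 ∈ D.Lam) (h2 : D.polW a u.2 ∈ D.C)
    {c : D.KK} (hc : c ∈ D.Ka (D.pol a)) : D.kp (trl u) c = c := by
  refine Ka_fix (D.good_trl u) (fun z => (D.eps (D.pol a u).1 (D.pol a z).1 ^ 4)⁻¹)
    (fun z => inv_ne_zero (pow_ne_zero _ (D.eps_ne_zero _ _))) (fun i z => ?_) hc
  have h3 : D.pol a (trl u z) = D.pol a z + D.pol a u := D.pol_map_add a z u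
  rw [h3]
  exact D.X_add_of_mem (u := D.pol a u) h1 h2 i _

theorem Ka_pol_const {a : ℤ[X]} (h : ∀ x, D.polV a x ∈ D.Lam) {c : D.KK}
    (hc : c ∈ D.Ka (D.pol a)) : ∃ e : k, c = algebraMap k D.KK e := by
  refine D.const fun x => D.Ka_pol_fix a (u := (x, 0)) (h x) ?_ hc
  rw [map_zero]
  exact D.C.zero_mem

theorem pol_ker {a : ℤ[X]} (h : ∀ x, D.polV a x ∈ D.Lam) (y : W) : D.polW a y ∈ D.C := by
  exact (D.consta (D.inA_pol a) (D.pol_map_add a) (fun c hc => D.Ka_pol_const h hc) (0, y)).2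

theorem X_pol_add {b : ℤ[X]} (h : D.polV b = 0) (a : ℤ[X]) (i : ι) (z : Vt × W) :
    D.X i (D.pol (a + b) z) = D.X i (D.pol a z) := by
  have h0 : ∀ x, D.polV b x ∈ D.Lam := fun x => by
    rw [h]
    exact D.Lam.zero_mem
  have h1 : (D.pol b z).1 = 0 := by
    change D.polV b z.1 = 0
    rw [h]
    rfl
  rw [D.pol_add, Pi.add_apply, D.X_add_of_mem (u := D.pol b z) (h0 _) (D.pol_ker h0 _), h1,
    D.eps_zero_left]
  simp

/-- `isDom_iff`; by `line ⊤` a nonzero germ `b ∘ a` is a unit. The space of `f ∈ G (2 ^ s)` with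
`gm (f ∘ a) = 0` is stable (`apply_congr`, `good_trl`) and does not contain `X i ^ 2 ^ s`
(`InA.exists_unit`), so it is zero; apply this to `b * X0 ^ (2 ^ s - n)` (`dom`). -/
theorem domi {a : Vt × W → Vt × W} (ha : D.InA a)
    (h : ∀ x : Vt, ∃ x' : Vt, ∀ z, (a (z + (x', 0))).1 = (a z).1 + x ∧
      (a (z + (x', 0))).2 - (a z).2 ∈ D.C) : D.IsDom a := by
  refine isDom_iff.2 fun n b hb hb0 => ?_
  obtain ⟨i, hi⟩ := ha.exists_unit
  obtain ⟨s, hs, hX⟩ := ha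
  obtain ⟨c, -, hc⟩ := line (⊤ : IntermediateField k D.KK) hs
    (fun i => (hX i).imp fun c hc => ⟨IntermediateField.mem_top, hc⟩) hb
  by_cases hc0 : c = 0
  swap
  · rw [hc]
    exact (D.isUnit_val hc0).mul (hs.pow n)
  exfalso
  rw [hc0, map_zero, zero_mul] at hc
  let S : Submodule k (Vt × W → k) :=
    D.G (2 ^ n) ⊓ LinearMap.ker (D.gm.comp (cmp a)).toLinearMap
  have hS : ∀ f, f ∈ S ↔ f ∈ D.G (2 ^ n) ∧ D.gm (f ∘ a) = 0 := fun f => Iff.rfl
  rcases D.irr (2 ^ n) (D.not_dvd_two_pow n) S inf_le_left (by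
    intro x hx f hf
    obtain ⟨hf, h1⟩ := (hS f).1 hf
    obtain ⟨x', hx'⟩ := h x
    refine (hS _).2 ⟨D.tr _ (x, 0) hx (smul_zero _) f hf, D.gm_eq_zero.2 ?_⟩
    refine ((D.good_trl (x', (0 : W))).1.eventually (D.gm_eq_zero.1 h1)).mono fun z hz => ?_
    have h2 : f (a (z + (x', 0))) = 0 := hz
    have h3 : f (a (z + (x', 0))) = f (a z + (x, 0)) :=
      D.apply_congr (hx' z).1 (by simpa using (hx' z).2) hf
    change D.eps x (a z).1 ^ (4 * 2 ^ n) * f (a z + (x, 0)) = 0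
    rw [← h3, h2, mul_zero]) with h1 | h1
  · have hle : n ≤ 2 ^ n := Nat.lt_two_pow_self.le
    have h2 := D.pow_mem D.X0_mem (2 ^ n - n)
    have h3 : D.X0 ^ (2 ^ n - n) ≠ 0 := fun h0 =>
      pow_ne_zero (2 ^ n - n) D.X0_zero (congrFun h0 0)
    have h4 := D.mul_mem _ _ _ _ hb h2
    rw [one_mul, Nat.add_sub_cancel' hle] at h4
    have h5 : b * D.X0 ^ (2 ^ n - n) ∈ S := (hS _).2 ⟨h4, by
      have : (b * D.X0 ^ (2 ^ n - n)) ∘ a = (b ∘ a) * ((D.X0 ^ (2 ^ n - n)) ∘ a) := rfl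
      rw [this, map_mul, hc, zero_mul]⟩
    rw [h1] at h5
    exact D.dom hb h2 hb0 h3 h5
  · have h2 := D.pow_mem (D.X_mem i) (2 ^ n)
    rw [one_mul, ← h1] at h2
    have h3 := ((hS _).1 h2).2
    have h4 : (D.X i ^ 2 ^ n) ∘ a = (D.X i ∘ a) ^ 2 ^ n := rfl
    rw [h4, map_pow] at h3
    exact (hi.pow _).ne_zero h3

theorem good_pol {a : ℤ[X]} (h : Function.Surjective (D.polV a)) : D.Good (D.pol a) := by
  refine ⟨D.domi (D.inA_pol a) fun x => ?_, D.inA_pol a⟩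
  obtain ⟨x', rfl⟩ := h x
  refine ⟨x', fun z => ?_⟩
  rw [D.pol_map_add]
  refine ⟨rfl, ?_⟩
  have h1 : (D.pol a (x', 0)).2 = 0 := map_zero (D.polW a)
  rw [Prod.snd_add, h1, add_zero, sub_self]
  exact D.C.zero_mem

end TD

end M4.CP
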