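import Pool.Agent.Lib.MP_33b3f9_ag.M4.CP.Defs

/-!
An ideal membership for ordinary polynomials.
-/

set_option autoImplicit false
set_option linter.unusedSectionVars false

namespace M4.CP

open Polynomial Filter

/-- The monomials `p ^ i X ^ j` with `i + j ≥ r + 3` lie in the ideal. -/
theorem poly_mem {p : ℕ} (hp : p.Prime) (P : ℤ[X]) (h4 : ¬ (p : ℤ) ∣ P.coeff 4)
    (hl : ∀ i < 4, (p : ℤ) ^ (4 - i) ∣ P.coeff i) (r t : ℕ) (J : Ideal ℤ[X]) (hP : P ∈ J)
    (hr : C ((p : ℤ) ^ r) ∈ J) (ht : (X : ℤ[X]) ^ (r + 3 + t) ∈ J) (a : ℕ) :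
    ∀ i, r ≤ i + a → ∀ j, r + 3 ≤ i + j → C ((p : ℤ) ^ i) * X ^ j ∈ J := by
  have big : ∀ i, r ≤ i → ∀ j, C ((p : ℤ) ^ i) * X ^ j ∈ J := by
    intro i hi j
    obtain ⟨d, rfl⟩ := Nat.exists_eq_add_of_le hi
    rw [pow_add, C_mul, mul_assoc]
    exact J.mul_mem_right _ hr
  have cop : IsCoprime (P.coeff 4) ((p : ℤ) ^ r) := by
    have hpp : Prime (p : ℤ) := Nat.prime_iff_prime_int.mp hp
    exact (((hpp.coprime_iff_not_dvd).mpr h4).symm).pow_right
  obtain ⟨u, v, huv⟩ := cop
  induction a with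
  | zero => intro i hi j _; exact big i (by omega) j
  | succ a iha =>
    intro i hi
    have inner : ∀ b j, r + 3 + t ≤ j + b → r + 3 ≤ i + j → C ((p : ℤ) ^ i) * X ^ j ∈ J := by
      intro b
      induction b with
      | zero =>
        intro j hj _
        obtain ⟨d, rfl⟩ := Nat.exists_eq_add_of_le (show r + 3 + t ≤ j by omega)
        rw [pow_add _ (r + 3 + t) d, mul_left_comm]
        exact J.mul_mem_right _ ht
      | succ b ihb =>
        intro j hj hij
        by_cases hir : r ≤ i
        · exact big i hir j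
        obtain ⟨k, rfl⟩ := Nat.exists_eq_add_of_le (show 4 ≤ j by omega)
        have h1 : C ((p : ℤ) ^ i) * X ^ k * P ∈ J := J.mul_mem_left _ hP
        have h2 : C ((p : ℤ) ^ i) * X ^ k * P.erase 4 ∈ J := by
          rw [(P.erase 4).as_sum_support_C_mul_X_pow, Finset.mul_sum]
          refine J.sum_mem fun l hlm => ?_
          have hl4 : l ≠ 4 := by
            intro h
            subst h
            simp at hlm
          rw [erase_ne _ hl4]
          rcases lt_or_gt_of_ne hl4 with hlt | hgt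
          · obtain ⟨q, hq⟩ := hl l hlt
            have h3 := iha (i + (4 - l)) (by omega) (k + l) (by omega)
            have e : C ((p : ℤ) ^ i) * X ^ k * (C (P.coeff l) * X ^ l)
                = C q * (C ((p : ℤ) ^ (i + (4 - l))) * X ^ (k + l)) := by
              rw [hq, pow_add, pow_add, C_mul, C_mul]
              ring
            rw [e]
            exact J.mul_mem_left _ h3
          · have h3 := ihb (k + l) (by omega) (by omega)
            have e : C ((p : ℤ) ^ i) * X ^ k * (C (P.coeff l) * X ^ l)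
                = C (P.coeff l) * (C ((p : ℤ) ^ i) * X ^ (k + l)) := by
              rw [pow_add]
              ring
            rw [e]
            exact J.mul_mem_left _ h3
        have h3 : C (P.coeff 4) * (C ((p : ℤ) ^ i) * X ^ (4 + k)) ∈ J := by
          have e : C (P.coeff 4) * (C ((p : ℤ) ^ i) * X ^ (4 + k))
              = C ((p : ℤ) ^ i) * X ^ k * P - C ((p : ℤ) ^ i) * X ^ k * P.erase 4 := by
            have e0 : P = C (P.coeff 4) * X ^ 4 + P.erase 4 := by
              rw [C_mul_X_pow_eq_monomial, monomial_add_erase]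
            rw [← mul_sub]
            have e1 : P - P.erase 4 = C (P.coeff 4) * X ^ 4 := by
              rw [sub_eq_iff_eq_add]
              exact e0
            rw [e1, pow_add]
            ring
          rw [e]
          exact J.sub_mem h1 h2
        have e : C ((p : ℤ) ^ i) * X ^ (4 + k)
            = C u * (C (P.coeff 4) * (C ((p : ℤ) ^ i) * X ^ (4 + k)))
              + C ((p : ℤ) ^ r) * (C v * (C ((p : ℤ) ^ i) * X ^ (4 + k))) := by
          have e0 : (C u * C (P.coeff 4) + C v * C ((p : ℤ) ^ r) : ℤ[X]) = 1 := by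
            rw [← C_mul, ← C_mul, ← C_add, huv, C_1]
          linear_combination (-(C ((p : ℤ) ^ i) * X ^ (4 + k))) * e0
        rw [e]
        exact J.add_mem (J.mul_mem_left _ h3) (J.mul_mem_right _ hr)
    intro j hij
    exact inner (r + 3 + t) j (by omega) hij

/-- All `p ^ i X ^ j` with `i + j ≥ r + 3` lie in the ideal `J = (P, p ^ r, X ^ (r + 3 + t))`:
clear if `i ≥ r` or `j ≥ r + 3 + t`; otherwise `j ≥ 4` and `P₄ p ^ i X ^ j` is congruent modulo `P`
to a combination of monomials `p ^ i X ^ j'`, `j' > j`, and `p ^ (i + 4 - l) X ^ (j - 4 + l)`,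
`l < 4`; `P₄` is invertible modulo `p ^ r`. Downward induction on `i`, inside it on `j`. -/
theorem poly_ord {p : ℕ} (hp : p.Prime) (P : ℤ[X]) (h4 : ¬ (p : ℤ) ∣ P.coeff 4)
    (hl : ∀ i < 4, (p : ℤ) ^ (4 - i) ∣ P.coeff i) (r t : ℕ) :
    ∃ a b c : ℤ[X], X ^ (r + 3) = a * P + C ((p : ℤ) ^ r) * b + X ^ (r + 3 + t) * c := by
  have h := poly_mem hp P h4 hl r t (Ideal.span {P, C ((p : ℤ) ^ r), X ^ (r + 3 + t)})
    (Ideal.subset_span (by simp)) (Ideal.subset_span (by simp)) (Ideal.subset_span (by simp))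
    r 0 (by omega) (r + 3) (by omega)
  rw [pow_zero, C_1, one_mul, Ideal.mem_span_insert] at h
  obtain ⟨a, z, hz, h⟩ := h
  rw [Ideal.mem_span_pair] at hz
  obtain ⟨b, c, hz⟩ := hz
  refine ⟨a, b, c, ?_⟩
  rw [h, ← hz]
  ring

end M4.CP
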