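import Pool.Agent.Lib.MP_33b3f9_ag.M4.CP.Fld
import Pool.Agent.Lib.MP_33b3f9_ag.M4.CP.QO2
import Pool.Agent.Lib.MP_33b3f9_ag.M4.CP.Grow2
import Pool.Agent.Lib.MP_33b3f9_ag.M4.CP.Grow3

/-!
Degrees and common sections from local heights.
-/

set_option autoImplicit false
set_option linter.unusedSectionVars false

namespace M4.CP

open Polynomial Filter

namespace TD

variable {k : Type} [Field k] [IsAlgClosed k] {p : ℕ} [Fact p.Prime] [CharP k p]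
  {Vt W ι : Type} [AddCommGroup Vt] [Module ℚ Vt] [AddCommGroup W] [Fintype ι]
  (D : TD k p Vt W ι)

variable {D} {a : Vt × W → Vt × W}

theorem tw_span {O : ValuationSubring D.KK} (hO : D.Over O) {s : D.FF}
    (hs : ∀ i, ∃ c ∈ O, D.gm (D.X i ∘ a) = D.val c * s) {f : Vt × W → k} (hf : f ∈ D.G 1) :
    ∃ c ∈ O, D.gm (f ∘ a) = D.val c * s := by
  rw [D.span] at hf
  induction hf using Submodule.span_induction with
  | mem f hf =>
    obtain ⟨i, rfl⟩ := hf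
    exact hs i
  | zero =>
    refine ⟨0, O.zero_mem, ?_⟩
    rw [map_zero, zero_mul]
    exact map_zero D.gm
  | add f g _ _ h1 h2 =>
    obtain ⟨c, hc, h1⟩ := h1
    obtain ⟨c', hc', h2⟩ := h2
    refine ⟨c + c', O.add_mem _ _ hc hc', ?_⟩
    rw [map_add, add_mul, ← h1, ← h2]
    exact map_add D.gm (f ∘ a) (g ∘ a)
  | smul e f _ h1 =>
    obtain ⟨c, hc, h1⟩ := h1
    refine ⟨algebraMap k D.KK e * c, O.mul_mem _ _ (hO e) hc, ?_⟩
    rw [map_mul, AlgHom.commutes, mul_assoc, ← h1, ← Algebra.smul_def]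
    exact map_smul D.gm e (f ∘ a)

theorem tw_pow {O : ValuationSubring D.KK} (hO : D.Over O) {s : D.FF}
    (hs : ∀ i, ∃ c ∈ O, D.gm (D.X i ∘ id) = D.val c * s) {d : ℕ} {x : D.KK}
    (hx : x ∈ D.GK 1 ^ d) : ∃ c ∈ O, D.val x * D.gm D.X0 ^ d = D.val c * s ^ d := by
  induction hx using Submodule.pow_induction_on_left' with
  | algebraMap e => exact ⟨algebraMap k D.KK e, hO e, by rw [pow_zero, pow_zero]⟩
  | add x y i _ _ h1 h2 =>
    obtain ⟨c, hc, h1⟩ := h1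
    obtain ⟨c', hc', h2⟩ := h2
    refine ⟨c + c', O.add_mem _ _ hc hc', ?_⟩
    rw [map_add, map_add, add_mul, add_mul, h1, h2]
  | mem_mul g hg i x _ h1 =>
    obtain ⟨c, hc, h1⟩ := h1
    obtain ⟨f, hf, hgf⟩ := hg
    obtain ⟨c', hc', h2⟩ := tw_span hO hs hf
    have h3 : D.val g * D.gm D.X0 = D.val c' * s := by
      rw [← h2, ← pow_one (D.gm D.X0), hgf]
      rfl
    refine ⟨c' * c, O.mul_mem _ _ hc' hc, ?_⟩
    rw [map_mul, map_mul, pow_succ', pow_succ', mul_mul_mul_comm, h1, h3, mul_mul_mul_comm]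

/-- `val_kp`, `pull_gm` -/
theorem tw_eq (ha : D.Good a) {d n : ℕ} {t c : D.KK} {f : Vt × W → k}
    (ht : D.gm (D.X0 ∘ a) = D.val t * D.gm D.X0 ^ d) (hc : D.val c * D.gm D.X0 ^ n = D.gm f) :
    D.val (D.kp a c * t ^ n) * D.gm D.X0 ^ (d * n) = D.gm (f ∘ a) := by
  have h1 := pull_gm ha.1 D.X0
  have h2 := pull_gm ha.1 f
  rw [← h2, ← hc, map_mul (D.pull a), map_pow (D.pull a), h1, ht, map_mul D.val, map_pow D.val,
    val_kp ha, pow_mul, mul_pow, mul_assoc]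

/-- The unit `gm X0` is a `⊤`-frame of `id` (`isFr_top`), so its `d`-th power is one of `a`
(`InA.isFr`). -/
theorem exists_tw (ha : D.Good a) {d : ℕ} (h : D.qO ⊤ a = D.qO ⊤ id ^ d) :
    ∃ t : D.KK, t ≠ 0 ∧ D.gm (D.X0 ∘ a) = D.val t * D.gm D.X0 ^ d := by
  have h0 : D.IsFr ⊤ id D.isUnit_X0.unit := by
    refine isFr_top fun i => ⟨D.xx i, ?_⟩
    rw [IsUnit.unit_spec, D.val_xx]
    rfl
  have h1 : D.IsFr ⊤ a (D.isUnit_X0.unit ^ d) := by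
    refine ha.2.isFr ?_
    rw [h, h0.qO_eq, QuotientGroup.mk_pow]
  obtain ⟨i, hi⟩ := D.X0_eq
  obtain ⟨c, -, hc⟩ := h1.1 i
  rw [Units.val_pow_eq_pow_val, IsUnit.unit_spec, ← hi] at hc
  refine ⟨c, ?_, hc⟩
  rintro rfl
  have hu : IsUnit (D.gm (D.X0 ∘ a)) := isDom_iff.1 ha.1 1 _ D.X0_mem D.X0_ne
  rw [hc, map_zero, zero_mul] at hu
  exact not_isUnit_zero hu

/-- `s` an `O`-frame of `id`; `s ^ d` is an `O`-frame of `a`, `s ^ d = val c' * gm (X j ∘ a)`. For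
`x ∈ GK 1 ^ d`, `val x * gm X0 ^ d = val c * s ^ d` with `c ∈ O` (induction). Take `g = xx j`. -/
theorem hv_ge (ha : D.Good a) {d : ℕ} {t : D.KK}
    (ht : D.gm (D.X0 ∘ a) = D.val t * D.gm D.X0 ^ d) {O : ValuationSubring D.KK} (hO : D.Over O)
    (h : D.qO O a = D.qO O id ^ d) {x : D.KK} (hx : x ∈ D.GK 1 ^ d) :
    ∃ g ∈ D.GK 1, ∃ c ∈ O, x = c * (D.kp a g * t) := by
  obtain ⟨s, hs⟩ := D.inA_id.exists_fr O
  have h1 : D.IsFr O a (s ^ d) := by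
    refine ha.2.isFr ?_
    rw [h, hs.qO_eq, QuotientGroup.mk_pow]
  obtain ⟨j, c', hc', hj⟩ := h1.2
  obtain ⟨c, hc, hx'⟩ := tw_pow hO hs.1 hx
  refine ⟨D.xx j, D.xx_mem j, c * c', O.mul_mem _ _ hc hc', ?_⟩
  have h2 := tw_eq (n := 1) (c := D.xx j) (f := D.X j) ha ht (by rw [pow_one, D.val_xx])
  rw [pow_one, mul_one] at h2
  rw [Units.val_pow_eq_pow_val] at hj
  apply D.val_inj
  apply (D.isUnit_X0.pow d).mul_right_cancel
  rw [hx', hj, ← h2, map_mul D.val (c * c'), map_mul D.val c]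
  ring

/-- `s = val e * gm (X i)` an `O`-frame of `id`; `gm (f ∘ a) = val c * s ^ d` with `c ∈ O` for `f` in
the span of the `X l`. Take `x = xx i ^ d`. -/
theorem hv_le (ha : D.Good a) {d : ℕ} {t : D.KK}
    (ht : D.gm (D.X0 ∘ a) = D.val t * D.gm D.X0 ^ d) {O : ValuationSubring D.KK} (hO : D.Over O)
    (h : D.qO O a = D.qO O id ^ d) {g : D.KK} (hg : g ∈ D.GK 1) :
    ∃ x ∈ D.GK 1 ^ d, ∃ c ∈ O, D.kp a g * t = c * x := by
  obtain ⟨s, hs⟩ := D.inA_id.exists_fr O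
  have h1 : D.IsFr O a (s ^ d) := by
    refine ha.2.isFr ?_
    rw [h, hs.qO_eq, QuotientGroup.mk_pow]
  obtain ⟨i, e, he, hi⟩ := hs.2
  obtain ⟨f, hf, hgf⟩ := hg
  obtain ⟨c, hc, hfa⟩ := tw_span hO h1.1 hf
  refine ⟨D.xx i ^ d, Submodule.pow_mem_pow _ (D.xx_mem i) d, c * e ^ d,
    O.mul_mem _ _ hc (_root_.pow_mem he d), ?_⟩
  have h2 := tw_eq ha ht hgf
  rw [pow_one, mul_one] at h2
  have h3 : D.gm (D.X i ∘ id) = D.val (D.xx i) * D.gm D.X0 := (D.val_xx i).symm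
  rw [Units.val_pow_eq_pow_val, hi, h3] at hfa
  apply D.val_inj
  apply (D.isUnit_X0.pow d).mul_right_cancel
  rw [h2, hfa, map_mul D.val (c * e ^ d), map_mul D.val c, map_pow D.val, map_pow D.val]
  ring

/-- `Grow.deg_le` -/
theorem deg_le (ha : D.Good a) {d : ℕ} (h : ∀ f ∈ D.G 1, f ∘ a ∈ D.G d) :
    FiniteDimensional (D.kp a).fieldRange D.KK ∧
      Module.finrank (D.kp a).fieldRange D.KK ≤ d ^ 4 := by
  obtain ⟨t, -, ht⟩ := D.exists_GK (h _ D.X0_mem)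
  have ht0 : t ≠ 0 := by
    rintro rfl
    have hu : IsUnit (D.gm (D.X0 ∘ a)) := isDom_iff.1 ha.1 1 _ D.X0_mem D.X0_ne
    rw [← ht, map_zero, zero_mul] at hu
    exact not_isUnit_zero hu
  refine D.grow.deg_le (D.kp a) t ht0 d fun c hc => ?_
  obtain ⟨f, hf, hcf⟩ := hc
  have h2 := tw_eq ha ht.symm hcf
  rw [pow_one, mul_one] at h2
  exact ⟨f ∘ a, h f hf, h2⟩

/-- `Grow.deg_ge` -/
theorem deg_ge (ha : D.Good a) [FiniteDimensional (D.kp a).fieldRange D.KK] {d : ℕ} (hd : 1 ≤ d)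
    (h : ∀ O, D.Over O → D.qO O a = D.qO O id ^ d) :
    d ^ 4 ≤ Module.finrank (D.kp a).fieldRange D.KK := by
  obtain ⟨t, -, ht⟩ := exists_tw ha (h ⊤ D.over_top)
  exact D.grow.deg_ge (D.kp a) t d hd fun O hO x hx => hv_ge ha ht hO (h O hO) hx

/-- `Grow.common` -/
theorem common (ha : D.Good a) {d : ℕ} (hd : ¬ p ∣ d)
    (h : ∀ O, D.Over O → D.qO O a = D.qO O id ^ d) :
    ∃ s : ℕ, ∃ f ∈ D.G (2 ^ s), f ≠ 0 ∧ ∃ g ∈ D.G (2 ^ s * d), D.gm g = D.gm (f ∘ a) := by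
  obtain ⟨t, ht0, ht⟩ := exists_tw ha (h ⊤ D.over_top)
  obtain ⟨s, c, ⟨f, hf, hcf⟩, hc0, g, hg, hcg⟩ :=
    D.grow.common (D.kp a) t ht0 d hd fun O hO g hg => hv_le ha ht hO (h O hO) hg
  refine ⟨s, f, hf, ?_, g, by rwa [mul_comm], ?_⟩
  · rintro rfl
    apply hc0
    apply D.val_inj
    apply (D.isUnit_X0.pow (2 ^ s)).mul_right_cancel
    rw [hcf, map_zero, map_zero, zero_mul]
  · rw [← hcg, tw_eq ha ht hcf]

end TD

end M4.CP
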