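import Pool.Agent.Lib.MP_33b3f9_ag.M4.CP.Phi
import Pool.Agent.Lib.MP_33b3f9_ag.M4.CP.Tw
import Pool.Agent.Lib.MP_33b3f9_ag.M4.CP.Faith

/-!
The kernel of `Phi` is `C`.
-/

set_option autoImplicit false
set_option linter.unusedSectionVars false

namespace M4.CP

open Polynomial Filter

namespace TD

variable {k : Type} [Field k] [IsAlgClosed k] {p : ℕ} [Fact p.Prime] [CharP k p]
  {Vt W ι : Type} [AddCommGroup Vt] [Module ℚ Vt] [AddCommGroup W] [Fintype ι]
  (D : TD k p Vt W ι)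

theorem phiInj_U (n : ℕ) (x : Vt) (y : W) (f : Vt × W → k) :
    Uop D.eps n (x, 0) f ∘ trl ((0 : Vt), y) = Uop D.eps n (x, 0) (f ∘ trl ((0 : Vt), y)) := by
  funext z
  simp only [Uop, trl, Function.comp, Prod.fst_add, add_zero, add_right_comm z]

include D in
theorem phiInj_two (s : ℕ) : ¬ p ∣ 2 ^ s := fun h =>
  D.p_odd ((Nat.prime_dvd_prime_iff_eq Fact.out Nat.prime_two).1
    ((Fact.out : p.Prime).dvd_of_dvd_pow h))

theorem phiInj_tr {n : ℕ} {x : Vt} (hx : (4 * n) • x ∈ D.Lam) {f : Vt × W → k} (hf : f ∈ D.G n) :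
    Uop D.eps n (x, 0) f ∈ D.G n := D.tr n (x, 0) hx (smul_zero _) f hf

/-- `qO_of_pow` with `N = p ^ j`, `p ^ j • y = 0`, `bb_nsmul_right` -/
theorem qO_trl_of_Phi {y : W} (h : D.Phi y = 1) (O : ValuationSubring D.KK) (hO : D.Over O) :
    D.qO O (trl ((0 : Vt), y)) = D.qO O id ^ 1 := by
  obtain ⟨j, hj⟩ := D.W_tors y
  have e : (trl ((0 : Vt), y) : Vt × W → Vt × W) = id + fun _ => (0, y) := rfl
  refine qO_of_pow (D.good_trl _).2 D.inA_id (N := p ^ j)
    (pow_ne_zero _ (Fact.out : p.Prime).ne_zero) ?_ ?_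
  · rw [pow_one, e]
    exact div_eq_one.1 h
  · have h1 := bb_nsmul_right hO D.inA_id (p ^ j) ((0 : Vt), y)
    rw [Prod.smul_mk, hj, smul_zero, ← Prod.zero_eq_mk, bb_zero_right, bb] at h1
    rw [pow_one, e]
    exact div_eq_one.1 ((div_pow (α := D.FFˣ ⧸ D.uO O) _ _ _).symm.trans h1.symm)

/-- `common` with `d = 1`; the space of good `f` is stable under the `Uop (2 ^ s) (x, 0)`, which
commute with composition by `trl (0, y)` (`gm_U`); `irr`. -/
theorem keeps_of_Phi {y : W} (h : D.Phi y = 1) : ∃ s : ℕ, ∀ f ∈ D.G (2 ^ s),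
    ∃ g ∈ D.G (2 ^ s), D.gm g = D.gm (f ∘ trl ((0 : Vt), y)) := by
  obtain ⟨s, f, hf, hf0, g, hg, e⟩ := common (D.good_trl ((0 : Vt), y)) (d := 1)
    (fun h1 => (Fact.out : p.Prime).ne_one (Nat.dvd_one.1 h1)) (D.qO_trl_of_Phi h)
  rw [mul_one] at hg
  let S : Submodule k (Vt × W → k) :=
    { carrier := {f | f ∈ D.G (2 ^ s) ∧ ∃ g ∈ D.G (2 ^ s), D.gm g = D.gm (f ∘ trl ((0 : Vt), y))}
      zero_mem' := ⟨Submodule.zero_mem _, 0, Submodule.zero_mem _, rfl⟩
      add_mem' := by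
        rintro a b ⟨ha, g, hg, e⟩ ⟨hb, g', hg', e'⟩
        refine ⟨Submodule.add_mem _ ha hb, g + g', Submodule.add_mem _ hg hg', ?_⟩
        rw [map_add, e, e', ← map_add]
        rfl
      smul_mem' := by
        rintro c a ⟨ha, g, hg, e⟩
        refine ⟨Submodule.smul_mem _ c ha, c • g, Submodule.smul_mem _ c hg, ?_⟩
        rw [map_smul, e, ← map_smul]
        rfl }
  have hS := D.irr (2 ^ s) (D.phiInj_two s) S (fun a ha => ha.1) (by
    rintro x hx a ⟨ha, g, hg, e⟩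
    refine ⟨D.phiInj_tr hx ha, _, D.phiInj_tr hx hg, ?_⟩
    rw [phiInj_U]
    exact D.gm_U e _ _)
  have hfS : f ∈ S := ⟨hf, g, hg, e⟩
  rcases hS with hS | hS
  · rw [hS] at hfS
    exact absurd hfS hf0
  · exact ⟨s, fun a ha => (show a ∈ S from hS ▸ ha).2⟩

/-- Schur. `f ↦ g` is a linear endomorphism of `G n` (`gm_inj_G`); take an eigenvalue `e`
(`Module.End.exists_eigenvalue`); the space of `f ∈ G n` with `gm (f ∘ trl) = gm (e • f)` is nonzero and
stable. -/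
theorem scalar_of_keeps {y : W} {n : ℕ} (hn : ¬ p ∣ n) (h : ∀ f ∈ D.G n,
    ∃ g ∈ D.G n, D.gm g = D.gm (f ∘ trl ((0 : Vt), y))) :
    ∃ e : k, ∀ f ∈ D.G n, D.gm (f ∘ trl ((0 : Vt), y)) = algebraMap k D.FF e * D.gm f := by
  by_cases h0 : D.G n = ⊥
  · refine ⟨0, fun f hf => ?_⟩
    rw [h0, Submodule.mem_bot] at hf
    rw [hf, map_zero D.gm, mul_zero]
    exact map_zero D.gm
  choose T hT hT' using h
  let L : Module.End k (D.G n) :=
    { toFun := fun f => ⟨T f f.2, hT f f.2⟩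
      map_add' := fun a b => Subtype.ext (D.gm_inj_G (hT _ _)
        (Submodule.add_mem _ (hT _ _) (hT _ _)) (by
          change D.gm (T _ _) = D.gm (T _ _ + T _ _)
          rw [map_add, hT', hT', hT', ← map_add]
          rfl))
      map_smul' := fun c a => Subtype.ext (D.gm_inj_G (hT _ _)
        (Submodule.smul_mem _ c (hT _ _)) (by
          change D.gm (T _ _) = D.gm (c • T _ _)
          rw [map_smul, hT', hT', ← map_smul]
          rfl)) }
  have := D.fin n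
  have : Nontrivial (D.G n) := Submodule.nontrivial_iff_ne_bot.2 h0
  obtain ⟨e, he⟩ := Module.End.exists_eigenvalue L
  obtain ⟨f, hf⟩ := he.exists_hasEigenvector
  let S : Submodule k (Vt × W → k) :=
    { carrier := {f | f ∈ D.G n ∧ D.gm (f ∘ trl ((0 : Vt), y)) = D.gm (e • f)}
      zero_mem' := ⟨Submodule.zero_mem _, by rw [smul_zero]; rfl⟩
      add_mem' := by
        rintro a b ⟨ha, e1⟩ ⟨hb, e2⟩
        refine ⟨Submodule.add_mem _ ha hb, ?_⟩
        rw [smul_add, map_add, ← e1, ← e2, ← map_add]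
        rfl
      smul_mem' := by
        rintro c a ⟨ha, e1⟩
        refine ⟨Submodule.smul_mem _ c ha, ?_⟩
        rw [smul_comm, map_smul, ← e1, ← map_smul]
        rfl }
  have hS := D.irr n hn S (fun a ha => ha.1) (by
    rintro x hx a ⟨ha, e1⟩
    refine ⟨D.phiInj_tr hx ha, ?_⟩
    rw [phiInj_U, D.gm_U e1]
    congr 1
    funext z
    simp only [Uop, Pi.smul_apply, smul_eq_mul, mul_left_comm])
  have hfS : (f : Vt × W → k) ∈ S := by
    refine ⟨f.2, ?_⟩
    rw [← hT' f f.2]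
    exact congrArg (fun g : D.G n => D.gm g) hf.apply_eq_smul
  rcases hS with hS | hS
  · rw [hS] at hfS
    exact absurd (Subtype.ext ((Submodule.mem_bot k).1 hfS)) hf.2
  · refine ⟨e, fun a ha => ?_⟩
    rw [(show a ∈ S from hS ▸ ha).2, map_smul, Algebra.smul_def]

/-- `kp_eq_id`, `mem_C_of_fix` -/
theorem Phi_inj {y : W} (h : D.Phi y = 1) : y ∈ D.C := by
  obtain ⟨s, hs⟩ := D.keeps_of_Phi h
  obtain ⟨e, he⟩ := D.scalar_of_keeps (D.phiInj_two s) hs
  exact D.mem_C_of_fix (D.kp_eq_id (D.good_trl _) Nat.one_le_two_pow _ he)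

end TD

end M4.CP
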