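import Pool.Agent.Lib.MP_33b3f9_ag.M4.CP.Basic

/-!
Sections of level `4 * 2 ^ s` are polynomials in the coordinates.
-/

set_option autoImplicit false
set_option linter.unusedSectionVars false

namespace M4.CP

open Polynomial Filter

namespace TD

variable {k : Type} [Field k] [IsAlgClosed k] {p : ℕ} [Fact p.Prime] [CharP k p]
  {Vt W ι : Type} [AddCommGroup Vt] [Module ℚ Vt] [AddCommGroup W] [Fintype ι]
  (D : TD k p Vt W ι)

/-- the translate of `G 1` -/
def S1 (x : Vt) : Submodule k (Vt × W → k) := (D.G 1).map (D.Ul 1 (x, 0))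

theorem pow2_span (x : Vt) :
    D.S1 x = Submodule.span k (Set.range fun i => Uop D.eps 1 (x, 0) (D.X i)) := by
  rw [S1, D.span, Submodule.map_span, ← Set.range_comp]
  rfl

theorem pow2_mem (x : Vt) {f : Vt × W → k} (hf : f ∈ D.G 1) : Uop D.eps 1 (x, 0) f ∈ D.S1 x :=
  Submodule.mem_map_of_mem (f := D.Ul 1 (x, 0)) hf

/-- `law` at `(z + (u, 0), (v, 0))`; `eps (u + v) z * eps (u - v) z = eps u z ^ 2`. Use `span`,
`Submodule.map_span`, `Submodule.span_mul_span`. -/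
theorem S1_mul (u v : Vt) : D.S1 (u + v) * D.S1 (u - v) ≤ D.S1 u ^ 2 := by
  rw [D.pow2_span (u + v), D.pow2_span (u - v), Submodule.span_mul_span, Submodule.span_le]
  rintro _ ⟨_, ⟨a, rfl⟩, _, ⟨b, rfl⟩, rfl⟩
  obtain ⟨c, hc⟩ := D.law a b
  have h : Uop D.eps 1 (u + v, 0) (D.X a) * Uop D.eps 1 (u - v, 0) (D.X b) =
      ∑ i, ∑ j, ∑ l, ∑ m, (c i j l m * (D.X l (v, 0) * D.X m (v, 0))) •
        (Uop D.eps 1 (u, 0) (D.X i) * Uop D.eps 1 (u, 0) (D.X j)) := by
    funext z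
    have h1 := hc (z + (u, 0)) (v, 0)
    have h2 : z + ((u, 0) : Vt × W) + (v, 0) = z + (u + v, 0) := by
      rw [add_assoc, Prod.mk_add_mk u, add_zero]
    have h3 : z + ((u, 0) : Vt × W) - (v, 0) = z + (u - v, 0) := by
      rw [add_sub_assoc, Prod.mk_sub_mk, sub_zero]
    have h4 : D.eps (u + v) z.1 * D.eps (u - v) z.1 = D.eps u z.1 * D.eps u z.1 := by
      rw [← D.eps_add_left, ← D.eps_add_left, add_add_sub_cancel]
    rw [h2, h3] at h1
    simp only [Finset.sum_apply, Pi.mul_apply, Pi.smul_apply, smul_eq_mul, Uop]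
    rw [mul_mul_mul_comm, ← mul_pow, h4, h1]
    simp only [Finset.mul_sum]
    refine Finset.sum_congr rfl fun i _ => Finset.sum_congr rfl fun j _ =>
      Finset.sum_congr rfl fun l _ => Finset.sum_congr rfl fun m _ => ?_
    ring
  change _ * _ ∈ D.S1 u ^ 2
  rw [h, pow_two]
  exact Submodule.sum_mem _ fun i _ => Submodule.sum_mem _ fun j _ =>
    Submodule.sum_mem _ fun l _ => Submodule.sum_mem _ fun m _ => Submodule.smul_mem _ _
      (Submodule.mul_mem_mul (D.pow2_mem u (D.X_mem i)) (D.pow2_mem u (D.X_mem j)))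

theorem pow2_prod (s : ℕ) (x : ℕ → Vt) : ∏ i ∈ Finset.range (2 ^ s), D.S1 (x i) ≤
    D.S1 (((2 : ℚ) ^ s)⁻¹ • ∑ i ∈ Finset.range (2 ^ s), x i) ^ 2 ^ s := by
  induction s generalizing x with
  | zero => simp
  | succ s ih =>
    have h : 2 ^ (s + 1) = 2 ^ s + 2 ^ s := by ring
    rw [h, Finset.prod_range_add, Finset.sum_range_add]
    refine (mul_le_mul' (ih x) (ih fun i => x (2 ^ s + i))).trans ?_
    generalize ∑ i ∈ Finset.range (2 ^ s), x i = a
    generalize ∑ i ∈ Finset.range (2 ^ s), x (2 ^ s + i) = b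
    have h1 := D.S1_mul (((2 : ℚ) ^ (s + 1))⁻¹ • (a + b)) (((2 : ℚ) ^ (s + 1))⁻¹ • (a - b))
    have h2 : ((2 : ℚ) ^ (s + 1))⁻¹ • (a + b) + ((2 : ℚ) ^ (s + 1))⁻¹ • (a - b) =
        ((2 : ℚ) ^ s)⁻¹ • a := by
      rw [pow_succ, mul_inv]
      module
    have h3 : ((2 : ℚ) ^ (s + 1))⁻¹ • (a + b) - ((2 : ℚ) ^ (s + 1))⁻¹ • (a - b) =
        ((2 : ℚ) ^ s)⁻¹ • b := by
      rw [pow_succ, mul_inv]
      module
    rw [h2, h3] at h1
    rw [← mul_pow, ← two_mul, pow_mul]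
    exact pow_le_pow_left' h1 _

/-- Induction on `s`: split `Fin (2 ^ s + 2 ^ s)` in two halves with means `a`, `b`; then
`S1 a ^ n * S1 b ^ n = (S1 a * S1 b) ^ n ≤ (S1 ((a + b) / 2) ^ 2) ^ n`. -/
theorem S1_prod (s : ℕ) (x : Fin (2 ^ s) → Vt) :
    ∏ i, D.S1 (x i) ≤ D.S1 (((2 : ℚ) ^ s)⁻¹ • ∑ i, x i) ^ 2 ^ s := by
  have h := D.pow2_prod s fun i => if h : i < 2 ^ s then x ⟨i, h⟩ else 0
  rw [Finset.prod_range, Finset.sum_range] at h
  simpa only [Fin.is_lt, dif_pos, Fin.eta] using h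

theorem pow2_le (x l : Vt) (hl : 4 • l ∈ D.Lam) : D.S1 (x + l) ≤ D.S1 x := by
  rintro _ ⟨f, hf, rfl⟩
  have h1 := D.pow2_mem x (D.tr 1 (l, 0) hl (smul_zero _) f hf)
  rw [D.U_U, Prod.mk_add_mk, add_zero] at h1
  exact (Submodule.smul_mem_iff _ (pow_ne_zero _ (D.eps_ne_zero _ _))).1 h1

/-- `tr` at level one and `U_U`. -/
theorem S1_add (x l : Vt) (hl : 4 • l ∈ D.Lam) : D.S1 (x + l) = D.S1 x := by
  refine le_antisymm (D.pow2_le x l hl) ?_
  have h := D.pow2_le (x + l) (-l) (by rw [smul_neg]; exact D.Lam.neg_mem hl)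
  rwa [add_neg_cancel_right] at h

theorem pow2_map (x : Vt) {n : ℕ} {f : Vt × W → k} (hf : f ∈ D.G 1 ^ n) :
    Uop D.eps n (x, 0) f ∈ D.S1 x ^ n := by
  induction hf using Submodule.pow_induction_on_left' with
  | algebraMap r =>
    have h : Uop D.eps 0 (x, 0) (algebraMap k (Vt × W → k) r) = algebraMap k (Vt × W → k) r := by
      funext z
      simp [Uop]
    rw [h, pow_zero]
    exact Submodule.algebraMap_mem r
  | add f g i _ _ h1 h2 =>
    rw [D.U_add]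
    exact add_mem h1 h2
  | mem_mul m hm i f _ h =>
    rw [Nat.succ_eq_add_one, pow_succ', add_comm i 1, D.U_mul]
    exact Submodule.mul_mem_mul (D.pow2_mem x hm) h

theorem pow2_zero : D.S1 0 = D.G 1 := by
  have h : D.Ul 1 ((0 : Vt), (0 : W)) = LinearMap.id := LinearMap.ext fun f => D.U_zero 1 f
  rw [S1, h, Submodule.map_id]

/-- `Ul n (x, 0)` maps `G 1 ^ n` into `S1 x ^ n` (`U_mul`, `Submodule.pow_induction_on_left'`); for
`n = 2 ^ s`, `S1 x ^ n = S1 (x - n • x) * S1 x ^ (n - 1) ≤ S1 0 ^ n`. Then `irr`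
(`X0 ^ n ≠ 0`). -/
theorem G_pow2 (s : ℕ) : D.G 1 ^ 2 ^ s = D.G (2 ^ s) := by
  have h0 : D.G 1 ^ 2 ^ s ≤ D.G (2 ^ s) := by simpa only [one_mul] using D.G_pow_le 1 (2 ^ s)
  refine (D.irr _ (D.not_dvd_two_pow s) _ h0 fun x hx f hf => ?_).resolve_left fun h => ?_
  · have h1 := D.pow2_prod s fun i => x + if i = 0 then -(2 ^ s • x) else 0
    have h2 : ∀ i : ℕ, D.S1 (x + if i = 0 then -(2 ^ s • x) else 0) = D.S1 x := by
      intro i
      refine D.S1_add _ _ ?_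
      split_ifs
      · rw [smul_neg, ← mul_smul]
        exact D.Lam.neg_mem hx
      · rw [smul_zero]
        exact D.Lam.zero_mem
    have h3 : 0 ∈ Finset.range (2 ^ s) := Finset.mem_range.2 (by positivity)
    rw [Finset.prod_congr rfl fun i _ => h2 i, Finset.prod_const, Finset.card_range,
      Finset.sum_add_distrib, Finset.sum_const, Finset.card_range, Finset.sum_ite_eq', if_pos h3,
      add_neg_cancel, smul_zero, D.pow2_zero] at h1
    exact h1 (D.pow2_map x hf)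
  · have h1 := Submodule.pow_mem_pow _ D.X0_mem (2 ^ s)
    rw [h, Submodule.mem_bot] at h1
    exact D.X0_zero (pow_eq_zero_iff (by positivity) |>.1 (congrFun h1 0))

end TD

end M4.CP
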