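import Pool.Agent.Lib.MP_33b3f9_ag.M4.CP.AA2
import Pool.Agent.Lib.MP_33b3f9_ag.M4.CP.Quad

/-!
Local heights: the class of a point modulo the units of a valuation ring.
-/

set_option autoImplicit false
set_option linter.unusedSectionVars false

namespace M4.CP

open Polynomial Filter

namespace TD

variable {k : Type} [Field k] [IsAlgClosed k] {p : ℕ} [Fact p.Prime] [CharP k p]
  {Vt W ι : Type} [AddCommGroup Vt] [Module ℚ Vt] [AddCommGroup W] [Fintype ι]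
  (D : TD k p Vt W ι)

/-- germs of units of `O` -/
def uO (O : ValuationSubring D.KK) : Subgroup D.FFˣ where
  carrier := {u | ∃ c : D.KK, c ∈ O ∧ c⁻¹ ∈ O ∧ (u : D.FF) = D.val c}
  one_mem' := ⟨1, O.one_mem, by simp, by simp⟩
  mul_mem' := by
    rintro u v ⟨c, hc, hc', hu⟩ ⟨d, hd, hd', hv⟩
    refine ⟨c * d, O.mul_mem _ _ hc hd, ?_, ?_⟩
    · rw [mul_inv]
      exact O.mul_mem _ _ hc' hd'
    · rw [Units.val_mul, hu, hv, map_mul]
  inv_mem' := by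
    rintro u ⟨c, hc, hc', hu⟩
    have h0 : c ≠ 0 := by
      rintro rfl
      rw [map_zero] at hu
      exact u.ne_zero hu
    refine ⟨c⁻¹, hc', by rwa [inv_inv], Units.inv_eq_of_mul_eq_one_right ?_⟩
    rw [hu, ← map_mul, mul_inv_cancel₀ h0, map_one]

/-- `s` generates the `O`-module spanned by the coordinates of `a` -/
def IsFr (O : ValuationSubring D.KK) (a : Vt × W → Vt × W) (s : D.FFˣ) : Prop :=
  (∀ i, ∃ c ∈ O, D.gm (D.X i ∘ a) = D.val c * s) ∧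
    ∃ i, ∃ c ∈ O, (s : D.FF) = D.val c * D.gm (D.X i ∘ a)

open Classical in
/-- the class of a point -/
noncomputable def qO (O : ValuationSubring D.KK) (a : Vt × W → Vt × W) : D.FFˣ ⧸ D.uO O :=
  if h : ∃ s, D.IsFr O a s then QuotientGroup.mk h.choose else 1

/-- valuation rings over the constants -/
def Over (O : ValuationSubring D.KK) : Prop := ∀ e : k, algebraMap k D.KK e ∈ O

theorem over_top : D.Over ⊤ := fun _ => trivial

variable {D} {O : ValuationSubring D.KK} {a b : Vt × W → Vt × W}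

theorem qo_mk_eq_iff {s s' : D.FFˣ} :
    (QuotientGroup.mk s : D.FFˣ ⧸ D.uO O) = QuotientGroup.mk s' ↔
      ∃ c : D.KK, c ∈ O ∧ c⁻¹ ∈ O ∧ c ≠ 0 ∧ (s : D.FF) = D.val c * s' := by
  rw [eq_comm, QuotientGroup.eq]
  constructor
  · rintro ⟨c, hc, hc', hu⟩
    refine ⟨c, hc, hc', ?_, ?_⟩
    · rintro rfl
      rw [map_zero] at hu
      exact (s'⁻¹ * s).ne_zero hu
    · rw [← hu, ← Units.val_mul, mul_comm s'⁻¹ s, inv_mul_cancel_right]
  · rintro ⟨c, hc, hc', -, hu⟩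
    refine ⟨c, hc, hc', ?_⟩
    rw [Units.val_mul, hu, mul_comm (D.val c), ← mul_assoc, Units.inv_mul, one_mul]

/-- take `i` with `O.valuation (c i)` maximal, `s' = val (c i) * s` -/
theorem InA.exists_fr (h : D.InA a) (O : ValuationSubring D.KK) : ∃ s, D.IsFr O a s := by
  obtain ⟨j, hj⟩ := h.exists_unit
  obtain ⟨s, hs, hc⟩ := h
  choose c hc using hc
  obtain ⟨i, -, hi⟩ := Finset.exists_max_image Finset.univ (fun i => O.valuation (c i))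
    ⟨j, Finset.mem_univ j⟩
  have hj0 : c j ≠ 0 := by
    intro h0
    rw [hc j, h0, map_zero, zero_mul] at hj
    exact not_isUnit_zero hj
  have hi0 : c i ≠ 0 := by
    intro h0
    have h1 := hi j (Finset.mem_univ j)
    rw [h0, map_zero, le_zero_iff, map_eq_zero] at h1
    exact hj0 h1
  refine ⟨((D.isUnit_val hi0).mul hs).unit, fun l => ?_, i, 1, O.one_mem, ?_⟩
  · obtain ⟨e, he⟩ := (O.valuation_le_iff (c l) (c i)).mp (hi l (Finset.mem_univ l))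
    refine ⟨e, e.2, ?_⟩
    rw [IsUnit.unit_spec, hc l, ← he, map_mul, mul_assoc]
  · rw [IsUnit.unit_spec, map_one, one_mul, hc i]

theorem IsFr.inA {s : D.FFˣ} (h : D.IsFr O a s) : D.InA a := by
  refine ⟨s, s.isUnit, fun i => ?_⟩
  obtain ⟨c, -, hc⟩ := h.1 i
  exact ⟨c, hc⟩

theorem IsFr.mk_eq {s s' : D.FFˣ} (h : D.IsFr O a s) (h' : D.IsFr O a s') :
    (QuotientGroup.mk s : D.FFˣ ⧸ D.uO O) = QuotientGroup.mk s' := by
  obtain ⟨h1, i, c, hc, hs⟩ := h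
  obtain ⟨h1', j, c', hc', hs'⟩ := h'
  obtain ⟨d, hd, hj⟩ := h1 j
  obtain ⟨d', hd', hi⟩ := h1' i
  have e1 : (s : D.FF) = D.val (c * d') * s' := by rw [map_mul, mul_assoc, ← hi, ← hs]
  have e2 : (s' : D.FF) = D.val (c' * d) * s := by rw [map_mul, mul_assoc, ← hj, ← hs']
  have e3 : c * d' * (c' * d) = 1 := by
    apply D.val_inj
    apply s.mul_left_inj.mp
    rw [map_mul, mul_assoc, ← e2, ← e1, map_one, one_mul]
  refine qo_mk_eq_iff.mpr ⟨c * d', O.mul_mem _ _ hc hd', ?_, left_ne_zero_of_mul_eq_one e3, e1⟩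
  rw [inv_eq_of_mul_eq_one_right e3]
  exact O.mul_mem _ _ hc' hd

theorem IsFr.qO_eq {s : D.FFˣ} (h : D.IsFr O a s) : D.qO O a = QuotientGroup.mk s := by
  have h1 : ∃ s, D.IsFr O a s := ⟨s, h⟩
  unfold qO
  rw [dif_pos h1]
  exact h1.choose_spec.mk_eq h

theorem InA.isFr (h : D.InA a) {s : D.FFˣ} (hs : D.qO O a = QuotientGroup.mk s) :
    D.IsFr O a s := by
  obtain ⟨s0, h0⟩ := h.exists_fr O
  rw [h0.qO_eq] at hs
  obtain ⟨c, hc, hc', hc0, e⟩ := qo_mk_eq_iff.mp hs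
  obtain ⟨h1, j, d, hd, hj⟩ := h0
  refine ⟨fun i => ?_, j, c⁻¹ * d, O.mul_mem _ _ hc' hd, ?_⟩
  · obtain ⟨d', hd', hi⟩ := h1 i
    exact ⟨d' * c, O.mul_mem _ _ hd' hc, by rw [hi, e, map_mul, mul_assoc]⟩
  · rw [map_mul, mul_assoc, ← hj, e, ← mul_assoc, ← map_mul, inv_mul_cancel₀ hc0, map_one,
      one_mul]

theorem mk_eq_iff {s s' : D.FFˣ} :
    (QuotientGroup.mk s : D.FFˣ ⧸ D.uO O) = QuotientGroup.mk s' ↔
      ∃ c : D.KK, c ∈ O ∧ c⁻¹ ∈ O ∧ c ≠ 0 ∧ (s : D.FF) = D.val c * s' := by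
  exact qo_mk_eq_iff

theorem isFr_top {s : D.FFˣ} (h : ∀ i, ∃ c : D.KK, D.gm (D.X i ∘ a) = D.val c * s) :
    D.IsFr ⊤ a s := by
  have hA : D.InA a := ⟨s, s.isUnit, h⟩
  obtain ⟨j, hj⟩ := hA.exists_unit
  obtain ⟨c, hc⟩ := h j
  have h0 : c ≠ 0 := by
    intro h0
    rw [hc, h0, map_zero, zero_mul] at hj
    exact not_isUnit_zero hj
  refine ⟨fun i => ?_, j, c⁻¹, trivial, ?_⟩
  · obtain ⟨d, hd⟩ := h i
    exact ⟨d, trivial, hd⟩
  · rw [hc, ← mul_assoc, ← map_mul, inv_mul_cancel₀ h0, map_one, one_mul]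

theorem IsFr.top {s : D.FFˣ} (h : D.IsFr O a s) : D.IsFr ⊤ a s := by
  refine isFr_top fun i => ?_
  obtain ⟨c, -, hc⟩ := h.1 i
  exact ⟨c, hc⟩

theorem qO_congr (h : ∀ i z, D.X i (b z) = D.X i (a z)) : D.qO O b = D.qO O a := by
  have h1 : ∀ i, D.X i ∘ b = D.X i ∘ a := fun i => funext (h i)
  have h2 : ∀ s, D.IsFr O b s ↔ D.IsFr O a s := by
    intro s
    unfold IsFr
    simp only [h1]
  by_cases h3 : ∃ s, D.IsFr O a s
  · obtain ⟨s, hs⟩ := h3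
    rw [hs.qO_eq, ((h2 s).mpr hs).qO_eq]
  · have h4 : ¬ ∃ s, D.IsFr O b s := fun ⟨s, hs⟩ => h3 ⟨s, (h2 s).mp hs⟩
    unfold qO
    rw [dif_neg h3, dif_neg h4]

theorem qO_const (hO : D.Over O) (u : Vt × W) : D.qO O (fun _ => u) = 1 := by
  have h1 : ∀ i, D.gm (D.X i ∘ fun _ : Vt × W => u) = D.val (algebraMap k D.KK (D.X i u)) := by
    intro i
    rw [AlgHom.commutes, ← D.gm.commutes]
    rfl
  have h2 : D.IsFr O (fun _ => u) 1 := by
    obtain ⟨j, hj⟩ := D.bpf u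
    refine ⟨fun i => ⟨_, hO (D.X i u), ?_⟩, j, _, hO (D.X j u)⁻¹, ?_⟩
    · rw [h1, Units.val_one, mul_one]
    · rw [h1, ← map_mul, ← map_mul, inv_mul_cancel₀ hj, map_one, map_one, Units.val_one]
  rw [h2.qO_eq, QuotientGroup.mk_one]

theorem qO_sg (h : D.InA a) : D.qO O (D.sg ∘ a) = D.qO O a ^ p := by
  obtain ⟨s, hs⟩ := h.exists_fr O
  have h1 : ∀ i, D.X i ∘ (D.sg ∘ a) = (D.X i ∘ a) ^ p := fun i => funext fun z => D.X_sg i (a z)
  have h2 : D.IsFr O (D.sg ∘ a) (s ^ p) := by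
    obtain ⟨h3, j, d, hd, hj⟩ := hs
    refine ⟨fun i => ?_, j, d ^ p, _root_.pow_mem hd p, ?_⟩
    · obtain ⟨c, hc, hi⟩ := h3 i
      refine ⟨c ^ p, _root_.pow_mem hc p, ?_⟩
      rw [h1, map_pow, hi, mul_pow, map_pow, Units.val_pow_eq_pow_val]
    · rw [h1, map_pow, map_pow, ← mul_pow, ← hj, Units.val_pow_eq_pow_val]
  rw [h2.qO_eq, hs.qO_eq, QuotientGroup.mk_pow]

theorem IsFr.pull {s : D.FFˣ} (h : D.IsFr ⊤ a s) (hb : D.Good b) :
    D.IsFr ⊤ (a ∘ b) (Units.map (D.pull b : D.FF →* D.FF) s) := by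
  refine isFr_top fun i => ?_
  obtain ⟨c, -, hc⟩ := h.1 i
  refine ⟨D.kp b c, ?_⟩
  have h1 : D.X i ∘ (a ∘ b) = (D.X i ∘ a) ∘ b := rfl
  rw [h1, ← pull_gm hb.1, hc, map_mul, val_kp hb]
  rfl

end TD

end M4.CP
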